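import Pool.Agent.Lib.MP_6cd19d_an.Vol

/-!
# Ratios of Riesz capacities on the line

For `n = 1` the interval maximizes `cap_q / cap_p` and `Vol / cap_p`, for all real `p < q < 1`.
-/

set_option autoImplicit false

namespace Pool.Agent.Lib.MP_6cd19d_an.DimOneThm

open Pool.Agent.Lib.MP_6cd19d_an

theorem result :
    ∀ p q : ℝ, p < q → q < 1 →
      ∀ cap : ℝ → Set (EuclideanSpace ℝ (Fin 1)) → ℝ,
        (∀ (s : ℝ) (K : Set (EuclideanSpace ℝ (Fin 1))),
          cap s K =
            if 0 < s then
              ((⨅ (μ : MeasureTheory.Measure (EuclideanSpace ℝ (Fin 1)))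
                  (_ : μ Set.univ = 1 ∧ μ Kᶜ = 0),
                  ∫⁻ x, ∫⁻ y, (edist x y) ^ (-s) ∂μ ∂μ) ^ (-1 / s)).toReal
            else if s = 0 then
              (if (⨅ (μ : MeasureTheory.Measure (EuclideanSpace ℝ (Fin 1)))
                    (_ : μ Set.univ = 1 ∧ μ Kᶜ = 0),
                    ∫⁻ x, ∫⁻ y, (if x = y then (⊤ : ENNReal) else
                      ENNReal.ofReal (Real.log ((Metric.diam K + 1) / dist x y))) ∂μ ∂μ) = ⊤
                then 0
                else (Metric.diam K + 1) * Real.exp (-((⨅ (μ : MeasureTheory.Measure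
                    (EuclideanSpace ℝ (Fin 1))) (_ : μ Set.univ = 1 ∧ μ Kᶜ = 0),
                    ∫⁻ x, ∫⁻ y, (if x = y then (⊤ : ENNReal) else
                      ENNReal.ofReal (Real.log ((Metric.diam K + 1) / dist x y))) ∂μ ∂μ).toReal)))
            else
              ((⨆ (μ : MeasureTheory.Measure (EuclideanSpace ℝ (Fin 1)))
                  (_ : μ Set.univ = 1 ∧ μ Kᶜ = 0),
                  ∫⁻ x, ∫⁻ y, (edist x y) ^ (-s) ∂μ ∂μ) ^ (-1 / s)).toReal) →
        ∀ K : Set (EuclideanSpace ℝ (Fin 1)), IsCompact K → 0 < cap p K →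
          cap q K / cap p K ≤
              cap q (Metric.closedBall (0 : EuclideanSpace ℝ (Fin 1)) 1) /
                cap p (Metric.closedBall (0 : EuclideanSpace ℝ (Fin 1)) 1) ∧
          (MeasureTheory.volume K).toReal / cap p K ≤
              (MeasureTheory.volume (Metric.closedBall (0 : EuclideanSpace ℝ (Fin 1)) 1)).toReal /
                cap p (Metric.closedBall (0 : EuclideanSpace ℝ (Fin 1)) 1) := by
  intro p q hpq hq cap hcap K hK hpos
  have hc : ∀ s K, cap s K = capf s K := by
    intro s K
    rw [hcap]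
    rfl
  simp only [hc] at hpos ⊢
  have hB : IsCompact (Metric.closedBall (0 : EuclideanSpace ℝ (Fin 1)) 1) :=
    isCompact_closedBall _ _
  rcases lt_or_ge (-1 : ℝ) p with hp | hp
  · have hp1 : p < 1 := by linarith
    have hq' : -1 < q := by linarith
    have hvp := vcst_pos hp hp1
    have hvq := vcst_pos hq' hq
    rw [cap_ball hp hp1, cap_ball hq' hq, vol_ball]
    constructor
    · have h1 := cap_ratio hp hpq hq hK hpos.le
      rw [div_le_div_iff₀ hpos (by positivity)]
      nlinarith
    · have h1 := vol_le_cap hp hp1 hK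
      rw [div_le_div_iff₀ hpos (by positivity)]
      nlinarith
  · have hpneg := capf_le_neg_one hp hK
    have hpball := capf_le_neg_one hp hB
    have h2p : (0 : ℝ) < 2 ^ (1 / p) := Real.rpow_pos_of_pos (by norm_num) _
    rw [diam_ball] at hpball
    have hd : 0 < Metric.diam K := by
      rw [hpneg] at hpos
      exact pos_of_mul_pos_right hpos h2p.le
    rw [hpneg, hpball, vol_ball]
    constructor
    · rcases lt_or_ge (-1 : ℝ) q with hq' | hq'
      · have h1 := cap_le_diam hq' hq hK
        rw [cap_ball hq' hq, div_le_div_iff₀ (by positivity) (by positivity)]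
        calc capf q K * (2 ^ (1 / p) * 2) ≤ (vcst q * Metric.diam K) * (2 ^ (1 / p) * 2) :=
              mul_le_mul_of_nonneg_right h1 (by positivity)
          _ = _ := by ring
      · rw [capf_le_neg_one hq' hK, capf_le_neg_one hq' hB, diam_ball]
        rw [div_le_div_iff₀ (by positivity) (by positivity)]
        exact le_of_eq (by ring)
    · have h1 := vol_le_diam hK
      rw [div_le_div_iff₀ (by positivity) (by positivity)]
      nlinarith

end Pool.Agent.Lib.MP_6cd19d_an.DimOneThm
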