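import Mathlib

section

section

/-!
# Hyperbolic functions and the logistic map
-/

set_option autoImplicit false

open MeasureTheory Set Filter Topology
open scoped ENNReal

namespace Pool.Agent.Lib.MP_6cd19d_an

/-- Twice the hyperbolic sine of half the argument. -/
noncomputable def S (l : ℝ) : ℝ := 2 * Real.sinh (l / 2)

/-- Twice the hyperbolic cosine of half the argument. -/
noncomputable def P (s : ℝ) : ℝ := 2 * Real.cosh (s / 2)

theorem S_pos {l : ℝ} (h : 0 < l) : 0 < S l := by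
  unfold S
  have : 0 < Real.sinh (l / 2) := Real.sinh_pos_iff.2 (by linarith)
  linarith

theorem P_pos (s : ℝ) : 0 < P s := by
  unfold P
  have := Real.cosh_pos (s / 2)
  linarith

theorem two_le_P (s : ℝ) : 2 ≤ P s := by
  unfold P
  have := Real.one_le_cosh (s / 2)
  linarith

theorem continuous_S : Continuous S := by
  unfold S
  fun_prop

theorem continuous_P : Continuous P := by
  unfold P
  fun_prop

theorem le_S {l : ℝ} (h : 0 ≤ l) : l ≤ S l := by
  unfold S
  have : l / 2 ≤ Real.sinh (l / 2) := Real.self_le_sinh_iff.2 (by linarith)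
  linarith

theorem S_strictMono : StrictMono S := by
  intro a b hab
  unfold S
  have : Real.sinh (a / 2) < Real.sinh (b / 2) := Real.sinh_lt_sinh.2 (by linarith)
  linarith

theorem hasDerivAt_S (l : ℝ) : HasDerivAt S (Real.cosh (l / 2)) l := by
  unfold S
  have h1 : HasDerivAt (fun l : ℝ => l / 2) (1 / 2) l := (hasDerivAt_id l).div_const 2
  have h2 := (h1.sinh).const_mul 2
  refine h2.congr_deriv ?_
  ring

theorem sigmoid_sub (s t : ℝ) :
    Real.sigmoid t - Real.sigmoid s = S (t - s) / (P s * P t) := by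
  have h1 : ∀ x : ℝ, Real.exp (-x) = (Real.exp (x / 2))⁻¹ ^ 2 := by
    intro x
    rw [← Real.exp_neg, ← Real.exp_nat_mul]
    congr 1
    push_cast
    ring
  have h2 : ∀ x : ℝ, P x = Real.exp (x / 2) + (Real.exp (x / 2))⁻¹ := by
    intro x
    unfold P
    rw [Real.cosh_eq, ← Real.exp_neg]
    ring
  have h3 : S (t - s) = Real.exp (t / 2) * (Real.exp (s / 2))⁻¹ -
      Real.exp (s / 2) * (Real.exp (t / 2))⁻¹ := by
    unfold S
    rw [Real.sinh_eq, ← Real.exp_neg, ← Real.exp_neg, ← Real.exp_add, ← Real.exp_add]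
    have e1 : (t - s) / 2 = t / 2 + -(s / 2) := by ring
    have e2 : -((t - s) / 2) = s / 2 + -(t / 2) := by ring
    rw [e2, e1]
    ring
  rw [Real.sigmoid_def, Real.sigmoid_def, h1, h1, h2, h2, h3]
  have ha := Real.exp_pos (s / 2)
  have hb := Real.exp_pos (t / 2)
  generalize Real.exp (s / 2) = a at *
  generalize Real.exp (t / 2) = b at *
  have h4 : (1 + a⁻¹ ^ 2) ≠ 0 := by positivity
  have h5 : (1 + b⁻¹ ^ 2) ≠ 0 := by positivity
  have h6 : a + a⁻¹ ≠ 0 := by positivity
  have h7 : b + b⁻¹ ≠ 0 := by positivity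
  have h8 : 1 + a ^ 2 ≠ 0 := by positivity
  have h9 : 1 + b ^ 2 ≠ 0 := by positivity
  field_simp
  ring

/-- The image of the logistic map: for `s < t` the difference is positive. -/
theorem sigmoid_sub_pos {s t : ℝ} (h : s < t) : 0 < Real.sigmoid t - Real.sigmoid s :=
  sub_pos.2 (Real.sigmoid_strictMono h)

end Pool.Agent.Lib.MP_6cd19d_an
end

section

/-!
# The key inequality for subadditive functions
-/

set_option autoImplicit false

open MeasureTheory Set Filter Topology
open scoped ENNReal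

namespace Pool.Agent.Lib.MP_6cd19d_an

/-- Tonelli for a weighted primitive. -/
theorem swap_prim {w h : ℝ → ℝ≥0∞} (hw : Measurable w) (hh : Measurable h) :
    ∫⁻ l in Ioi 0, w l * ∫⁻ u in Ioo 0 l, h u = ∫⁻ u in Ioi 0, h u * ∫⁻ l in Ioi u, w l := by
  have h1 : ∀ l ∈ Ioi (0 : ℝ), w l * ∫⁻ u in Ioo 0 l, h u =
      ∫⁻ u in Ioi 0, (if u < l then w l * h u else 0) := by
    intro l _
    rw [← lintegral_const_mul _ hh, ← lintegral_indicator measurableSet_Ioo,
      ← lintegral_indicator measurableSet_Ioi]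
    refine lintegral_congr fun u => ?_
    simp only [indicator, mem_Ioo, mem_Ioi]
    by_cases h1 : 0 < u <;> by_cases h2 : u < l <;> simp [h1, h2]
  have h2 : ∀ u ∈ Ioi (0 : ℝ), h u * ∫⁻ l in Ioi u, w l =
      ∫⁻ l in Ioi 0, (if u < l then w l * h u else 0) := by
    intro u hu
    rw [← lintegral_const_mul _ hw, ← lintegral_indicator measurableSet_Ioi,
      ← lintegral_indicator measurableSet_Ioi]
    refine lintegral_congr fun l => ?_
    simp only [indicator, mem_Ioi] at hu ⊢
    by_cases h2 : u < l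
    · have : 0 < l := hu.trans h2
      simp [h2, this, mul_comm]
    · simp [h2]
  rw [setLIntegral_congr_fun measurableSet_Ioi h1, setLIntegral_congr_fun measurableSet_Ioi h2]
  refine lintegral_lintegral_swap ?_
  refine Measurable.aemeasurable ?_
  refine Measurable.ite (measurableSet_lt measurable_snd measurable_fst) ?_ measurable_const
  exact (hw.comp measurable_fst).mul (hh.comp measurable_snd)

/-- The basic consequence of subadditivity. -/
theorem star {h : ℝ → ℝ≥0∞} (hm : Measurable h)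
    (hsub : ∀ u v, 0 < u → 0 < v → h (u + v) ≤ h u + h v) (l : ℝ) :
    ENNReal.ofReal l * h l ≤ 2 * ∫⁻ u in Ioo 0 l, h u := by
  have h1 : ENNReal.ofReal l * h l = ∫⁻ _ in Ioo 0 l, h l := by
    rw [setLIntegral_const, Real.volume_Ioo, sub_zero, mul_comm]
  have h2 : ∫⁻ _ in Ioo 0 l, h l ≤ ∫⁻ u in Ioo 0 l, (h u + h (l - u)) := by
    refine setLIntegral_mono (hm.add (hm.comp (measurable_const.sub measurable_id))) ?_
    intro u hu
    have := hsub u (l - u) hu.1 (sub_pos.2 hu.2)
    rwa [add_sub_cancel] at this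
  have h3 : ∫⁻ u in Ioo 0 l, h (l - u) = ∫⁻ u in Ioo 0 l, h u := by
    rw [← lintegral_indicator measurableSet_Ioo, ← lintegral_indicator measurableSet_Ioo,
      ← lintegral_sub_left_eq_self ((Ioo 0 l).indicator h) l]
    refine lintegral_congr fun u => ?_
    simp only [indicator, mem_Ioo]
    by_cases h1 : 0 < u <;> by_cases h2 : u < l <;> simp [h1, h2]
  rw [h1]
  refine h2.trans ?_
  rw [lintegral_add_left hm, h3, two_mul]

/-- The rearrangement inequality. -/
theorem rearr {a b c d : ℝ≥0∞} (hab : a ≤ b) (hcd : c ≤ d) :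
    a * d + b * c ≤ a * c + b * d := by
  obtain ⟨e, rfl⟩ := exists_add_of_le hab
  obtain ⟨f, rfl⟩ := exists_add_of_le hcd
  have : a * c + (a + e) * (c + f) = a * (c + f) + (a + e) * c + e * f := by ring
  rw [this]
  exact le_self_add

/-- Chebyshev's association inequality. -/
theorem cheb {m : Measure ℝ} [SFinite m] {V ρ : ℝ → ℝ≥0∞} (hV : Measurable V) (hρ : Measurable ρ)
    {A : Set ℝ} (hA : ∀ᵐ x ∂m, x ∈ A) (hVA : ∀ x ∈ A, ∀ y ∈ A, x ≤ y → V y ≤ V x)
    (hρA : ∀ x ∈ A, ∀ y ∈ A, x ≤ y → ρ y ≤ ρ x) :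
    (∫⁻ x, V x ∂m) * (∫⁻ x, ρ x ∂m) ≤ (∫⁻ x, V x * ρ x ∂m) * (∫⁻ _, 1 ∂m) := by
  have key : ∫⁻ x, ∫⁻ y, (V x * ρ y + V y * ρ x) ∂m ∂m ≤
      ∫⁻ x, ∫⁻ y, (V x * ρ x + V y * ρ y) ∂m ∂m := by
    refine lintegral_mono_ae ?_
    filter_upwards [hA] with x hx
    refine lintegral_mono_ae ?_
    filter_upwards [hA] with y hy
    rcases le_total x y with h | h
    · have := rearr (hVA x hx y hy h) (hρA x hx y hy h)
      calc V x * ρ y + V y * ρ x = V y * ρ x + V x * ρ y := add_comm _ _
        _ ≤ V y * ρ y + V x * ρ x := this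
        _ = _ := add_comm _ _
    · have := rearr (hVA y hy x hx h) (hρA y hy x hx h)
      exact this
  have e1 : ∫⁻ x, ∫⁻ y, (V x * ρ y + V y * ρ x) ∂m ∂m =
      2 * ((∫⁻ x, V x ∂m) * (∫⁻ x, ρ x ∂m)) := by
    have : ∀ x, ∫⁻ y, (V x * ρ y + V y * ρ x) ∂m =
        V x * (∫⁻ y, ρ y ∂m) + ρ x * ∫⁻ y, V y ∂m := by
      intro x
      rw [lintegral_add_left (hρ.const_mul _), lintegral_const_mul _ hρ, lintegral_mul_const _ hV,
        mul_comm (∫⁻ y, V y ∂m)]
    simp_rw [this]
    rw [lintegral_add_left (hV.mul_const _), lintegral_mul_const _ hV, lintegral_mul_const _ hρ,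
      two_mul, mul_comm (∫⁻ a, ρ a ∂m)]
  have e2 : ∫⁻ x, ∫⁻ y, (V x * ρ x + V y * ρ y) ∂m ∂m =
      2 * ((∫⁻ x, V x * ρ x ∂m) * (∫⁻ _, 1 ∂m)) := by
    have : ∀ x, ∫⁻ y, (V x * ρ x + V y * ρ y) ∂m =
        V x * ρ x * (∫⁻ _, 1 ∂m) + ∫⁻ y, V y * ρ y ∂m := by
      intro x
      rw [lintegral_add_left measurable_const]
      simp
    simp_rw [this]
    have hVρ : Measurable (fun x => V x * ρ x) := hV.mul hρ
    rw [lintegral_add_left (hVρ.mul_const _), lintegral_mul_const _ hVρ]
    simp only [lintegral_const, two_mul, one_mul]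
  rw [e1, e2] at key
  exact (ENNReal.mul_le_mul_iff_right (by norm_num) (by norm_num)).1 key

end Pool.Agent.Lib.MP_6cd19d_an
end
end

section

section

/-!
# Monotonicity of the averaged primitive
-/

set_option autoImplicit false

open MeasureTheory Set Filter Topology
open scoped ENNReal

namespace Pool.Agent.Lib.MP_6cd19d_an

theorem lint_cube {a b : ℝ} (ha : 0 < a) (hab : a ≤ b) :
    ∫⁻ l in Ioo a b, ENNReal.ofReal (2 / l ^ 3) = ENNReal.ofReal (1 / a ^ 2 - 1 / b ^ 2) := by
  have hd : ∀ x ∈ uIcc a b, HasDerivAt (fun l : ℝ => -(1 / l ^ 2)) (2 / x ^ 3) x := by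
    intro x hx
    rw [uIcc_of_le hab] at hx
    have hx0 : x ≠ 0 := (ha.trans_le hx.1).ne'
    have h1 : HasDerivAt (fun l : ℝ => l ^ 2) (2 * x) x := by
      simpa using hasDerivAt_pow 2 x
    have h2 := (h1.inv (pow_ne_zero 2 hx0)).neg
    have e : (fun l : ℝ => -(1 / l ^ 2)) = -(fun l : ℝ => l ^ 2)⁻¹ := by
      funext l
      simp
    rw [e]
    refine h2.congr_deriv ?_
    field_simp
  have hc : ContinuousOn (fun l : ℝ => 2 / l ^ 3) (uIcc a b) := by
    rw [uIcc_of_le hab]
    refine ContinuousOn.div continuousOn_const (by fun_prop) ?_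
    intro x hx
    exact pow_ne_zero 3 (ha.trans_le hx.1).ne'
  have hi : IntervalIntegrable (fun l : ℝ => 2 / l ^ 3) volume a b := hc.intervalIntegrable
  have h3 := intervalIntegral.integral_eq_sub_of_hasDerivAt hd hi
  rw [intervalIntegral.integral_of_le hab, integral_Ioc_eq_integral_Ioo] at h3
  have hi' : IntegrableOn (fun l : ℝ => 2 / l ^ 3) (Ioo a b) :=
    ((intervalIntegrable_iff_integrableOn_Ioc_of_le hab).1 hi).mono_set Ioo_subset_Ioc_self
  rw [← ofReal_integral_eq_lintegral_ofReal hi', h3]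
  · congr 1
    ring
  · refine (ae_restrict_mem measurableSet_Ioo).mono ?_
    intro x hx
    have : 0 < x := ha.trans hx.1
    change (0 : ℝ) ≤ 2 / x ^ 3
    positivity

theorem anti {h : ℝ → ℝ≥0∞} (hm : Measurable h)
    (hsub : ∀ u v, 0 < u → 0 < v → h (u + v) ≤ h u + h v) {R R' : ℝ} (hR : 0 < R)
    (hRR : R ≤ R') (hfin : ∫⁻ u in Ioo 0 R', h u ≠ ⊤) :
    ENNReal.ofReal (R ^ 2) * ∫⁻ u in Ioo 0 R', h u ≤
      ENNReal.ofReal (R' ^ 2) * ∫⁻ u in Ioo 0 R, h u := by
  have hR' : 0 < R' := hR.trans_le hRR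
  set w : ℝ → ℝ≥0∞ := (Ioo R R').indicator (fun l => ENNReal.ofReal (2 / l ^ 3)) with hw
  have hwm : Measurable w := by
    refine Measurable.indicator ?_ measurableSet_Ioo
    fun_prop
  set F : ℝ → ℝ≥0∞ := fun u => ENNReal.ofReal (1 / (max u R) ^ 2 - 1 / R' ^ 2) with hF
  set a : ℝ → ℝ≥0∞ := fun u => if R < u then ENNReal.ofReal (2 / u ^ 2) else 0 with ha
  set b : ℝ → ℝ≥0∞ := fun u => if u ≤ R then ENNReal.ofReal (2 / R ^ 2) else 0 with hb
  have ham : Measurable a :=
    Measurable.ite (measurableSet_lt measurable_const measurable_id) (by fun_prop) measurable_const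
  have hbm : Measurable b :=
    Measurable.ite (measurableSet_le measurable_id measurable_const) (by fun_prop) measurable_const
  have hFm : Measurable F := by fun_prop
  have hI : ∀ u ∈ Ioi (0 : ℝ), ∫⁻ l in Ioi u, w l = if u < R' then F u else 0 := by
    intro u hu
    rw [hw, setLIntegral_indicator measurableSet_Ioo, Ioo_inter_Ioi]
    split_ifs with huR
    · rw [lint_cube (lt_of_lt_of_le hR (le_max_left _ _)) (max_le hRR huR.le), hF]
      simp only [max_comm R u]
    · rw [Ioo_eq_empty]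
      · simp
      · intro hcon
        exact huR ((le_max_right _ _).trans_lt hcon)
  have h1 : ∫⁻ l in Ioi 0, w l * (ENNReal.ofReal l * h l) ≤
      2 * ∫⁻ u in Ioi 0, h u * ∫⁻ l in Ioi u, w l := by
    rw [← swap_prim hwm hm, ← lintegral_const_mul' _ _ (by norm_num)]
    refine lintegral_mono fun l => ?_
    calc w l * (ENNReal.ofReal l * h l) ≤ w l * (2 * ∫⁻ u in Ioo 0 l, h u) := by
          exact mul_le_mul_right (star hm hsub l) _
      _ = _ := by ring
  have h2 : ∫⁻ l in Ioi 0, w l * (ENNReal.ofReal l * h l) = ∫⁻ u in Ioo 0 R', h u * a u := by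
    rw [← lintegral_indicator measurableSet_Ioi, ← lintegral_indicator measurableSet_Ioo]
    refine lintegral_congr fun u => ?_
    simp only [indicator, mem_Ioo, mem_Ioi, hw, ha]
    by_cases h1 : 0 < u
    · by_cases h2 : R < u
      · by_cases h3 : u < R'
        · simp only [h1, h2, h3, and_self, if_true]
          rw [← mul_assoc, ← ENNReal.ofReal_mul (by positivity), mul_comm]
          congr 2
          field_simp
        · simp [h3]
      · simp [h2]
    · have h3 : ¬ R < u := fun h => h1 (hR.trans h)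
      simp [h1]
  have h3 : ∫⁻ u in Ioi 0, h u * ∫⁻ l in Ioi u, w l = ∫⁻ u in Ioo 0 R', h u * F u := by
    rw [setLIntegral_congr_fun measurableSet_Ioi (fun u hu => by rw [hI u hu]),
      ← lintegral_indicator measurableSet_Ioi, ← lintegral_indicator measurableSet_Ioo]
    refine lintegral_congr fun u => ?_
    simp only [indicator, mem_Ioo, mem_Ioi]
    by_cases h1 : 0 < u <;> by_cases h2 : u < R' <;> simp [h1, h2]
  have h4 : ∫⁻ u in Ioo 0 R', h u * b u =
      ENNReal.ofReal (2 / R ^ 2) * ∫⁻ u in Ioo 0 R, h u := by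
    rw [← lintegral_const_mul _ hm]
    rw [← lintegral_indicator measurableSet_Ioo, ← lintegral_indicator measurableSet_Ioo]
    refine lintegral_congr_ae ?_
    have : ∀ᵐ u : ℝ, u ≠ R := by
      simp [ae_iff, measure_singleton]
    filter_upwards [this] with u hu
    simp only [indicator, mem_Ioo, hb]
    by_cases h1 : 0 < u
    · by_cases h2 : u < R
      · simp [h1, h2, h2.le, h2.trans_le hRR, mul_comm]
      · have h3 : ¬ u ≤ R := fun h => h2 (lt_of_le_of_ne h hu)
        simp [h2, h3]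
    · simp [h1]
  have h5 : (∫⁻ u in Ioo 0 R', h u * a u) + (∫⁻ u in Ioo 0 R', h u * b u) =
      2 * (∫⁻ u in Ioo 0 R', h u * F u) +
        ENNReal.ofReal (2 / R' ^ 2) * (∫⁻ u in Ioo 0 R', h u) := by
    have hmF : Measurable (fun u => h u * F u) := hm.mul hFm
    have hma : Measurable (fun u => h u * a u) := hm.mul ham
    rw [← lintegral_const_mul _ hmF, ← lintegral_const_mul _ hm,
      ← lintegral_add_left hma, ← lintegral_add_left (hmF.const_mul _)]
    refine setLIntegral_congr_fun measurableSet_Ioo ?_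
    intro u hu
    have e : a u + b u = 2 * F u + ENNReal.ofReal (2 / R' ^ 2) := by
      have hle : 0 ≤ 1 / (max u R) ^ 2 - 1 / R' ^ 2 := by
        have h1 : 0 < max u R := lt_of_lt_of_le hR (le_max_right _ _)
        have h2 : max u R ≤ R' := max_le hu.2.le hRR
        rw [sub_nonneg]
        exact one_div_le_one_div_of_le (by positivity) (by gcongr)
      have e2 : 2 * F u + ENNReal.ofReal (2 / R' ^ 2) = ENNReal.ofReal (2 / (max u R) ^ 2) := by
        rw [hF]
        simp only
        rw [show (2 : ℝ≥0∞) = ENNReal.ofReal 2 by simp, ← ENNReal.ofReal_mul (by norm_num),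
          ← ENNReal.ofReal_add (by positivity) (by positivity)]
        congr 1
        ring
      rw [e2, ha, hb]
      simp only
      by_cases h1 : R < u
      · simp [h1, not_le.2 h1, max_eq_left h1.le]
      · simp [h1, not_lt.1 h1]
    change h u * a u + h u * b u = 2 * (h u * F u) + ENNReal.ofReal (2 / R' ^ 2) * h u
    calc h u * a u + h u * b u = h u * (a u + b u) := by ring
      _ = h u * (2 * F u + ENNReal.ofReal (2 / R' ^ 2)) := by rw [e]
      _ = _ := by ring
  have h6 : ∫⁻ u in Ioo 0 R', h u * a u ≠ ⊤ := by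
    have : ∫⁻ u in Ioo 0 R', h u * a u ≤ ∫⁻ u in Ioo 0 R', h u * ENNReal.ofReal (2 / R ^ 2) := by
      refine setLIntegral_mono (hm.mul_const _) ?_
      intro u hu
      rw [ha]
      simp only
      split_ifs with h1
      · gcongr
      · simp
    refine ne_top_of_le_ne_top ?_ this
    rw [lintegral_mul_const _ hm]
    exact ENNReal.mul_ne_top hfin ENNReal.ofReal_ne_top
  have h7 : ENNReal.ofReal (2 / R' ^ 2) * ∫⁻ u in Ioo 0 R', h u ≤
      ENNReal.ofReal (2 / R ^ 2) * ∫⁻ u in Ioo 0 R, h u := by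
    rw [h2, h3] at h1
    rw [h4] at h5
    refine (ENNReal.add_le_add_iff_left h6).1 ?_
    rw [h5]
    gcongr
  have e1 : ENNReal.ofReal (R ^ 2) = ENNReal.ofReal (R ^ 2 * R' ^ 2 / 2) * ENNReal.ofReal (2 / R' ^ 2) := by
    rw [← ENNReal.ofReal_mul (by positivity)]
    congr 1
    field_simp
  have e2 : ENNReal.ofReal (R' ^ 2) = ENNReal.ofReal (R ^ 2 * R' ^ 2 / 2) * ENNReal.ofReal (2 / R ^ 2) := by
    rw [← ENNReal.ofReal_mul (by positivity)]
    congr 1
    field_simp
  rw [e1, e2, mul_assoc, mul_assoc]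
  gcongr

end Pool.Agent.Lib.MP_6cd19d_an
end

section

/-!
# The key inequality
-/

set_option autoImplicit false

open MeasureTheory Set Filter Topology
open scoped ENNReal

namespace Pool.Agent.Lib.MP_6cd19d_an

/-- Minus the derivative of `S ^ (- 1 - p)`. -/
noncomputable def g (p R : ℝ) : ℝ := (1 + p) * S R ^ (-2 - p) * Real.cosh (R / 2)

theorem measurable_g (p : ℝ) : Measurable (g p) := by
  unfold g
  have := continuous_S.measurable
  fun_prop

theorem g_pos {p : ℝ} (hp : -1 < p) {R : ℝ} (hR : 0 < R) : 0 < g p R := by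
  unfold g
  have h1 := Real.rpow_pos_of_pos (S_pos hR) (-2 - p)
  have h2 := Real.cosh_pos (R / 2)
  have h3 : 0 < 1 + p := by linarith
  positivity

theorem tendsto_S : Tendsto S atTop atTop := by
  refine tendsto_atTop_mono' atTop ?_ tendsto_id
  filter_upwards [eventually_ge_atTop (0 : ℝ)] with l hl
  exact le_S hl

theorem lint_g {p : ℝ} (hp : -1 < p) {u : ℝ} (hu : 0 < u) :
    ∫⁻ l in Ioi u, ENNReal.ofReal (g p l) = ENNReal.ofReal (S u ^ (-1 - p)) := by
  have hd : ∀ x ∈ Ici u, HasDerivAt (fun l => -(S l ^ (-1 - p))) (g p x) x := by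
    intro x hx
    have hx0 : 0 < x := hu.trans_le hx
    have h1 := ((hasDerivAt_S x).rpow_const (p := -1 - p) (Or.inl (S_pos hx0).ne')).neg
    refine h1.congr_deriv ?_
    unfold g
    have e : -1 - p - 1 = -2 - p := by ring
    rw [e]
    ring
  have hpos : ∀ x ∈ Ioi u, 0 ≤ g p x := fun x hx => (g_pos hp (hu.trans hx)).le
  have hlim : Tendsto (fun l => -(S l ^ (-1 - p))) atTop (𝓝 0) := by
    have h1 : Tendsto (fun l => S l ^ (-(1 + p))) atTop (𝓝 0) :=
      (tendsto_rpow_neg_atTop (by linarith : 0 < 1 + p)).comp tendsto_S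
    have h2 := h1.neg
    rw [neg_zero] at h2
    refine h2.congr fun l => ?_
    congr 2
    ring
  have hi := integrableOn_Ioi_deriv_of_nonneg' hd hpos hlim
  have h3 := integral_Ioi_of_hasDerivAt_of_nonneg' hd hpos hlim
  rw [← ofReal_integral_eq_lintegral_ofReal hi, h3]
  · congr 1
    ring
  · refine (ae_restrict_mem measurableSet_Ioi).mono ?_
    intro x hx
    exact hpos x hx

theorem layer {p : ℝ} (hp : -1 < p) {h : ℝ → ℝ≥0∞} (hm : Measurable h) :
    ∫⁻ l in Ioi 0, ENNReal.ofReal (S l ^ (-1 - p)) * h l =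
      ∫⁻ R in Ioi 0, ENNReal.ofReal (g p R) * ∫⁻ u in Ioo 0 R, h u := by
  rw [swap_prim (measurable_g p).ennreal_ofReal hm]
  refine setLIntegral_congr_fun measurableSet_Ioi ?_
  intro u hu
  simp only
  rw [lint_g hp hu, mul_comm]

theorem prim_id {R : ℝ} (hR : 0 < R) :
    ∫⁻ u in Ioo 0 R, ENNReal.ofReal u = ENNReal.ofReal (R ^ 2) * 2⁻¹ := by
  have hi : IntegrableOn (fun u : ℝ => u) (Ioo 0 R) := by
    refine (Continuous.integrableOn_Icc continuous_id).mono_set Ioo_subset_Icc_self
  rw [← ofReal_integral_eq_lintegral_ofReal hi]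
  · have h3 : ∫ u in Ioo 0 R, u = R ^ 2 * 2⁻¹ := by
      rw [← integral_Ioc_eq_integral_Ioo, ← intervalIntegral.integral_of_le hR.le, integral_id]
      ring
    rw [h3, ENNReal.ofReal_mul (by positivity)]
    congr 1
    rw [ENNReal.ofReal_inv_of_pos (by norm_num)]
    simp
  · refine (ae_restrict_mem measurableSet_Ioo).mono ?_
    intro x hx
    exact hx.1.le

/-- The normalizing constant. -/
noncomputable def Z (p : ℝ) : ℝ≥0∞ :=
  ∫⁻ l in Ioi 0, ENNReal.ofReal (S l ^ (-1 - p)) * ENNReal.ofReal l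

theorem Z_ne_zero (p : ℝ) : Z p ≠ 0 := by
  unfold Z
  have h1 : Measurable (fun l => ENNReal.ofReal (S l ^ (-1 - p)) * ENNReal.ofReal l) := by
    have := continuous_S.measurable
    fun_prop
  rw [← pos_iff_ne_zero, setLIntegral_pos_iff h1]
  refine lt_of_lt_of_le ?_ (measure_mono (?_ : Ioo (0 : ℝ) 1 ⊆ _))
  · simp
  · intro l hl
    refine ⟨?_, hl.1⟩
    have h2 := Real.rpow_pos_of_pos (S_pos hl.1) (-1 - p)
    simp only [Function.mem_support, ne_eq, mul_eq_zero, ENNReal.ofReal_eq_zero, not_or, not_le]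
    exact ⟨h2, hl.1⟩

/-- The key inequality. -/
theorem key {p q : ℝ} (hp : -1 < p) (hpq : p ≤ q) {h : ℝ → ℝ≥0∞} (hm : Measurable h)
    (hsub : ∀ u v, 0 < u → 0 < v → h (u + v) ≤ h u + h v) :
    (∫⁻ l in Ioi 0, ENNReal.ofReal (S l ^ (-1 - p)) * h l) * Z q ≤
      (∫⁻ l in Ioi 0, ENNReal.ofReal (S l ^ (-1 - q)) * h l) * Z p := by
  have hq : -1 < q := hp.trans_le hpq
  by_cases hfin : ∀ R, 0 < R → ∫⁻ u in Ioo 0 R, h u ≠ ⊤
  · set U : ℝ → ℝ≥0∞ := fun R => ∫⁻ u in Ioo 0 R, h u with hU
    have hUmono : Monotone U := by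
      intro a b hab
      exact lintegral_mono_set (Ioo_subset_Ioo_right hab)
    have hUm : Measurable U := hUmono.measurable
    set V : ℝ → ℝ≥0∞ := fun R => U R / ENNReal.ofReal (R ^ 2) with hV
    have hVm : Measurable V := by
      refine hUm.div ?_
      fun_prop
    set G : ℝ → ℝ≥0∞ := fun R => ENNReal.ofReal (g p R) * ENNReal.ofReal (R ^ 2) with hG
    have hGm : Measurable G := by
      refine (measurable_g p).ennreal_ofReal.mul ?_
      fun_prop
    set ρ : ℝ → ℝ≥0∞ := fun R => ENNReal.ofReal ((1 + q) / (1 + p) * S R ^ (-(q - p))) with hρ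
    have hρm : Measurable ρ := by
      have := continuous_S.measurable
      fun_prop
    have hUV : ∀ R ∈ Ioi (0 : ℝ), U R = ENNReal.ofReal (R ^ 2) * V R := by
      intro R hR
      have : 0 < R := hR
      rw [hV]
      simp only
      rw [ENNReal.mul_div_cancel]
      · rw [ne_eq, ENNReal.ofReal_eq_zero, not_le]
        positivity
      · exact ENNReal.ofReal_ne_top
    have hgρ : ∀ R ∈ Ioi (0 : ℝ), ENNReal.ofReal (g q R) = ENNReal.ofReal (g p R) * ρ R := by
      intro R hR
      have hR' : 0 < R := hR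
      rw [hρ]
      simp only
      rw [← ENNReal.ofReal_mul (g_pos hp hR).le]
      congr 1
      unfold g
      have e : -2 - q = -2 - p + -(q - p) := by ring
      rw [e, Real.rpow_add (S_pos hR)]
      have : 1 + p ≠ 0 := by linarith
      field_simp
    set m : Measure ℝ := (volume.restrict (Ioi (0 : ℝ))).withDensity G with hmdef
    have hint : ∀ f : ℝ → ℝ≥0∞, Measurable f → ∫⁻ x, f x ∂m = ∫⁻ x in Ioi 0, G x * f x := by
      intro f hf
      rw [hmdef, lintegral_withDensity_eq_lintegral_mul _ hGm hf]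
      rfl
    have hcheb := cheb (m := m) hVm hρm (A := Ioi 0)
      (by
        have h1 : ∀ᵐ x ∂(volume.restrict (Ioi (0 : ℝ))), x ∈ Ioi (0 : ℝ) :=
          ae_restrict_mem measurableSet_Ioi
        exact (withDensity_absolutelyContinuous _ _).ae_le h1)
      (by
        intro x hx y hy hxy
        have hx' : (0 : ℝ) < x := hx
        have hy' : (0 : ℝ) < y := hy
        rw [hV]
        simp only
        have h1 := anti hm hsub hx hxy (hfin y hy)
        have h2 : U y ≤ U x * ENNReal.ofReal (y ^ 2) / ENNReal.ofReal (x ^ 2) := by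
          refine (ENNReal.le_div_iff_mul_le (Or.inl ?_) (Or.inl ENNReal.ofReal_ne_top)).2 ?_
          · rw [ne_eq, ENNReal.ofReal_eq_zero, not_le]
            positivity
          · rw [mul_comm, mul_comm (U x)]
            exact h1
        refine ENNReal.div_le_of_le_mul ?_
        rwa [ENNReal.mul_div_right_comm] at h2)
      (by
        intro x hx y hy hxy
        rw [hρ]
        simp only
        refine ENNReal.ofReal_le_ofReal ?_
        have h1 : S y ^ (-(q - p)) ≤ S x ^ (-(q - p)) :=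
          Real.rpow_le_rpow_of_nonpos (S_pos hx) (S_strictMono.monotone hxy) (by linarith)
        have h2 : 0 ≤ (1 + q) / (1 + p) := div_nonneg (by linarith) (by linarith)
        exact mul_le_mul_of_nonneg_left h1 h2)
    have hVρ : Measurable (fun x => V x * ρ x) := hVm.mul hρm
    rw [hint V hVm, hint ρ hρm, hint _ hVρ, hint _ measurable_const] at hcheb
    have e1 : ∫⁻ l in Ioi 0, ENNReal.ofReal (S l ^ (-1 - p)) * h l = ∫⁻ x in Ioi 0, G x * V x := by
      rw [layer hp hm]
      refine setLIntegral_congr_fun measurableSet_Ioi ?_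
      intro R hR
      change ENNReal.ofReal (g p R) * U R = G R * V R
      rw [hUV R hR, hG]
      ring
    have e2 : ∫⁻ l in Ioi 0, ENNReal.ofReal (S l ^ (-1 - q)) * h l =
        ∫⁻ x in Ioi 0, G x * (V x * ρ x) := by
      rw [layer hq hm]
      refine setLIntegral_congr_fun measurableSet_Ioi ?_
      intro R hR
      change ENNReal.ofReal (g q R) * U R = G R * (V R * ρ R)
      rw [hUV R hR, hgρ R hR, hG]
      ring
    have e3 : Z p = 2⁻¹ * ∫⁻ x in Ioi 0, G x * 1 := by
      unfold Z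
      rw [layer hp ENNReal.measurable_ofReal, ← lintegral_const_mul' _ _ (by norm_num)]
      refine setLIntegral_congr_fun measurableSet_Ioi ?_
      intro R hR
      simp only
      rw [prim_id hR, hG]
      ring
    have e4 : Z q = 2⁻¹ * ∫⁻ x in Ioi 0, G x * ρ x := by
      unfold Z
      rw [layer hq ENNReal.measurable_ofReal, ← lintegral_const_mul' _ _ (by norm_num)]
      refine setLIntegral_congr_fun measurableSet_Ioi ?_
      intro R hR
      simp only
      rw [prim_id hR, hgρ R hR, hG]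
      ring
    rw [e1, e2, e3, e4]
    calc (∫⁻ x in Ioi 0, G x * V x) * (2⁻¹ * ∫⁻ x in Ioi 0, G x * ρ x)
        = 2⁻¹ * ((∫⁻ x in Ioi 0, G x * V x) * ∫⁻ x in Ioi 0, G x * ρ x) := by ring
      _ ≤ 2⁻¹ * ((∫⁻ x in Ioi 0, G x * (V x * ρ x)) * ∫⁻ x in Ioi 0, G x * 1) := by
          exact mul_le_mul_right hcheb _
      _ = _ := by ring
  · push Not at hfin
    obtain ⟨R, hR, hRtop⟩ := hfin
    have h1 : ∫⁻ l in Ioi 0, ENNReal.ofReal (S l ^ (-1 - q)) * h l = ⊤ := by
      rw [layer hq hm, eq_top_iff]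
      have h2 : ∫⁻ x in Ioi R, ENNReal.ofReal (g q x) * ⊤ ≤
          ∫⁻ R in Ioi 0, ENNReal.ofReal (g q R) * ∫⁻ u in Ioo 0 R, h u := by
        calc ∫⁻ x in Ioi R, ENNReal.ofReal (g q x) * ⊤
            = ∫⁻ x in Ioi R, ENNReal.ofReal (g q x) * ∫⁻ u in Ioo 0 x, h u := by
              refine setLIntegral_congr_fun measurableSet_Ioi ?_
              intro x hx
              simp only
              congr 1
              refine (eq_top_iff.2 ?_).symm
              rw [← hRtop]
              exact lintegral_mono_set (Ioo_subset_Ioo_right (le_of_lt hx))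
          _ ≤ _ := lintegral_mono_set (Ioi_subset_Ioi hR.le)
      refine le_trans ?_ h2
      rw [lintegral_mul_const _ (measurable_g q).ennreal_ofReal, lint_g hq hR,
        ENNReal.mul_top]
      rw [ne_eq, ENNReal.ofReal_eq_zero, not_le]
      exact Real.rpow_pos_of_pos (S_pos hR) _
    rw [h1, ENNReal.top_mul (Z_ne_zero p)]
    exact le_top

end Pool.Agent.Lib.MP_6cd19d_an
end

section

/-!
# The weighted functional on functions of two variables
-/

set_option autoImplicit false

open MeasureTheory Set Filter Topology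
open scoped ENNReal

namespace Pool.Agent.Lib.MP_6cd19d_an

/-- The weighted integral over the pairs `s < t`. -/
noncomputable def W (p : ℝ) (H : ℝ → ℝ → ℝ≥0∞) : ℝ≥0∞ :=
  ∫⁻ l in Ioi 0, ENNReal.ofReal (S l ^ (-1 - p)) * ∫⁻ s, H s (s + l)

theorem measurable_wt (p : ℝ) : Measurable (fun l => ENNReal.ofReal (S l ^ (-1 - p))) := by
  have := continuous_S.measurable
  fun_prop

theorem measurable_diag {H : ℝ → ℝ → ℝ≥0∞} (hH : Measurable (Function.uncurry H)) :
    Measurable (fun l => ∫⁻ s, H s (s + l)) := by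
  have h1 : Measurable (fun x : ℝ × ℝ => H x.2 (x.2 + x.1)) := by
    have : (fun x : ℝ × ℝ => H x.2 (x.2 + x.1)) =
        Function.uncurry H ∘ (fun x : ℝ × ℝ => (x.2, x.2 + x.1)) := rfl
    rw [this]
    exact hH.comp (by fun_prop)
  exact h1.lintegral_prod_right'

theorem measurable_section {H : ℝ → ℝ → ℝ≥0∞} (hH : Measurable (Function.uncurry H)) (l : ℝ) :
    Measurable (fun s => H s (s + l)) := by
  have : (fun s => H s (s + l)) = Function.uncurry H ∘ (fun s : ℝ => (s, s + l)) := rfl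
  rw [this]
  exact hH.comp (by fun_prop)

theorem W_mono {p : ℝ} {H H' : ℝ → ℝ → ℝ≥0∞} (h : ∀ s t, s < t → H s t ≤ H' s t) :
    W p H ≤ W p H' := by
  unfold W
  refine setLIntegral_mono' measurableSet_Ioi ?_
  intro l hl
  refine mul_le_mul_right (lintegral_mono fun s => h _ _ ?_) _
  have : (0 : ℝ) < l := hl
  linarith

theorem W_congr {p : ℝ} {H H' : ℝ → ℝ → ℝ≥0∞} (h : ∀ s t, s < t → H s t = H' s t) :
    W p H = W p H' :=
  le_antisymm (W_mono fun s t hst => (h s t hst).le) (W_mono fun s t hst => (h s t hst).ge)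

theorem W_add {p : ℝ} {H H' : ℝ → ℝ → ℝ≥0∞} (hH : Measurable (Function.uncurry H)) :
    W p (fun s t => H s t + H' s t) = W p H + W p H' := by
  unfold W
  have h1 : Measurable (fun l => ENNReal.ofReal (S l ^ (-1 - p)) * ∫⁻ s, H s (s + l)) :=
    (measurable_wt p).mul (measurable_diag hH)
  rw [← lintegral_add_left h1]
  refine lintegral_congr fun l => ?_
  rw [lintegral_add_left (measurable_section hH l), mul_add]

theorem W_const_mul {p : ℝ} {H : ℝ → ℝ → ℝ≥0∞} (hH : Measurable (Function.uncurry H))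
    (c : ℝ≥0∞) : W p (fun s t => c * H s t) = c * W p H := by
  unfold W
  have h1 : Measurable (fun l => ENNReal.ofReal (S l ^ (-1 - p)) * ∫⁻ s, H s (s + l)) :=
    (measurable_wt p).mul (measurable_diag hH)
  rw [← lintegral_const_mul _ h1]
  refine lintegral_congr fun l => ?_
  rw [lintegral_const_mul _ (measurable_section hH l)]
  ring

/-- The key inequality for the functional `W`. -/
theorem W_key {p q : ℝ} (hp : -1 < p) (hpq : p ≤ q) {H : ℝ → ℝ → ℝ≥0∞}
    (hH : Measurable (Function.uncurry H))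
    (hsub : ∀ s u t, s < u → u < t → H s t ≤ H s u + H u t) :
    W p H * Z q ≤ W q H * Z p := by
  refine key hp hpq (measurable_diag hH) ?_
  intro u v hu hv
  have h1 : ∫⁻ s, H s (s + (u + v)) ≤ ∫⁻ s, (H s (s + u) + H (s + u) (s + u + v)) := by
    refine lintegral_mono fun s => ?_
    have := hsub s (s + u) (s + u + v) (by linarith) (by linarith)
    rwa [← add_assoc s u v]
  refine h1.trans ?_
  rw [lintegral_add_left (measurable_section hH u)]
  refine add_le_add le_rfl (le_of_eq ?_)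
  exact lintegral_add_right_eq_self (fun s => H s (s + v)) u

/-- Increments of a Stieltjes function. -/
theorem lint_stieltjes (f : StieltjesFunction ℝ) {a b : ℝ} (ha : Tendsto f atBot (𝓝 a))
    (hb : Tendsto f atTop (𝓝 b)) (l : ℝ) :
    ∫⁻ s, ENNReal.ofReal (f (s + l) - f s) = ENNReal.ofReal l * ENNReal.ofReal (b - a) := by
  have hfin : IsFiniteMeasure f.measure := by
    refine ⟨?_⟩
    rw [f.measure_univ ha hb]
    exact ENNReal.ofReal_lt_top
  have h1 : ∀ s, ENNReal.ofReal (f (s + l) - f s) =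
      ∫⁻ y, (if s < y ∧ y ≤ s + l then 1 else 0) ∂f.measure := by
    intro s
    rw [← f.measure_Ioc, ← lintegral_indicator_one measurableSet_Ioc]
    refine lintegral_congr fun y => ?_
    simp [indicator, mem_Ioc]
  simp_rw [h1]
  rw [lintegral_lintegral_swap]
  · have h2 : ∀ y : ℝ, ∫⁻ s, (if s < y ∧ y ≤ s + l then (1 : ℝ≥0∞) else 0) = ENNReal.ofReal l := by
      intro y
      have : (fun s => (if s < y ∧ y ≤ s + l then (1 : ℝ≥0∞) else 0)) =
          (Ico (y - l) y).indicator 1 := by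
        funext s
        simp only [indicator, mem_Ico, Pi.one_apply]
        by_cases h1 : s < y
        · by_cases h2 : y ≤ s + l
          · have : y - l ≤ s := by linarith
            simp [h1, h2]
          · have : ¬ y - l ≤ s := by
              intro h
              exact h2 (by linarith)
            simp [h2]
        · simp [h1]
      rw [this, lintegral_indicator_one measurableSet_Ico, Real.volume_Ico]
      congr 1
      ring
    simp_rw [h2]
    rw [lintegral_const, f.measure_univ ha hb]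
  · refine Measurable.aemeasurable ?_
    refine Measurable.ite ?_ measurable_const measurable_const
    exact (measurableSet_lt measurable_fst measurable_snd).inter
      (measurableSet_le measurable_snd (measurable_fst.add_const l))

/-- Increments of a monotone function. -/
theorem lint_monotone {τ : ℝ → ℝ} (hτ : Monotone τ) {a b : ℝ} (ha : Tendsto τ atBot (𝓝 a))
    (hb : Tendsto τ atTop (𝓝 b)) (l : ℝ) :
    ∫⁻ s, ENNReal.ofReal (τ (s + l) - τ s) = ENNReal.ofReal l * ENNReal.ofReal (b - a) := by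
  have hae : ∀ᵐ s, hτ.stieltjesFunction s = τ s := by
    filter_upwards [hτ.countable_not_continuousAt.ae_notMem volume] with s hs
    rw [hτ.stieltjesFunction_eq]
    simp only [not_not] at hs
    exact hs.continuousWithinAt.rightLim_eq
  have hae' : ∀ᵐ s, hτ.stieltjesFunction (s + l) = τ (s + l) :=
    (measurePreserving_add_right volume l).quasiMeasurePreserving.ae hae
  have h1 : ∫⁻ s, ENNReal.ofReal (τ (s + l) - τ s) =
      ∫⁻ s, ENNReal.ofReal (hτ.stieltjesFunction (s + l) - hτ.stieltjesFunction s) := by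
    refine lintegral_congr_ae ?_
    filter_upwards [hae, hae'] with s h1 h2
    rw [h1, h2]
  rw [h1]
  refine lint_stieltjes _ ?_ ?_ l
  · refine tendsto_of_tendsto_of_tendsto_of_le_of_le ha
      (ha.comp (tendsto_atBot_add_const_right _ 1 tendsto_id)) ?_ ?_
    · intro x
      rw [hτ.stieltjesFunction_eq]
      exact hτ.le_rightLim le_rfl
    · intro x
      rw [hτ.stieltjesFunction_eq]
      exact hτ.rightLim_le (by simp)
  · refine tendsto_of_tendsto_of_tendsto_of_le_of_le hb
      (hb.comp (tendsto_atTop_add_const_right _ 1 tendsto_id)) ?_ ?_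
    · intro x
      rw [hτ.stieltjesFunction_eq]
      exact hτ.le_rightLim le_rfl
    · intro x
      rw [hτ.stieltjesFunction_eq]
      exact hτ.rightLim_le (by simp)

theorem W_monotone {p : ℝ} {τ : ℝ → ℝ} (hτ : Monotone τ) {a b : ℝ} (ha : Tendsto τ atBot (𝓝 a))
    (hb : Tendsto τ atTop (𝓝 b)) :
    W p (fun s t => ENNReal.ofReal (τ t - τ s)) = Z p * ENNReal.ofReal (b - a) := by
  unfold W Z
  rw [← lintegral_mul_const' _ _ ENNReal.ofReal_ne_top]
  refine setLIntegral_congr_fun measurableSet_Ioi ?_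
  intro l _
  simp only
  rw [lint_monotone hτ ha hb l, mul_assoc]

theorem W_sigmoid (p : ℝ) :
    W p (fun s t => ENNReal.ofReal (Real.sigmoid t - Real.sigmoid s)) = Z p := by
  rw [W_monotone Real.sigmoid_monotone Real.tendsto_sigmoid_atBot Real.tendsto_sigmoid_atTop]
  simp

end Pool.Agent.Lib.MP_6cd19d_an
end

section

/-!
# The convex functions, and their perspectives
-/

set_option autoImplicit false

open MeasureTheory Set Filter Topology
open scoped ENNReal

namespace Pool.Agent.Lib.MP_6cd19d_an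

/-- The convex function `(y ^ (- p) - 1) / p`, with the limit value for `p = 0`. -/
noncomputable def psi (p y : ℝ) : ℝ := if p = 0 then -Real.log y else (y ^ (-p) - 1) / p

theorem measurable_psi (p : ℝ) : Measurable (psi p) := by
  unfold psi
  split_ifs <;> fun_prop

theorem psi_one (p : ℝ) : psi p 1 = 0 := by
  unfold psi
  split_ifs <;> simp

theorem hasDerivAt_psi (p : ℝ) {y : ℝ} (hy : 0 < y) :
    HasDerivAt (psi p) (-(y ^ (-1 - p))) y := by
  by_cases hp : p = 0
  · subst hp
    have e : psi 0 = fun y => -Real.log y := by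
      funext y
      simp [psi]
    rw [e]
    refine (Real.hasDerivAt_log hy.ne').neg.congr_deriv ?_
    rw [sub_zero, Real.rpow_neg_one]
  · have e : psi p = fun y => (y ^ (-p) - 1) / p := by
      funext y
      simp [psi, hp]
    rw [e]
    refine (((Real.hasDerivAt_rpow_const (p := -p) (Or.inl hy.ne')).sub_const 1).div_const
      p).congr_deriv ?_
    have e1 : -p - 1 = -1 - p := by ring
    rw [e1]
    field_simp

theorem psi_eq_integral (p : ℝ) {y : ℝ} (hy : 0 < y) :
    psi p y = ∫ u in y..1, u ^ (-1 - p) := by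
  have hpos : ∀ x ∈ uIcc y 1, 0 < x := by
    intro x hx
    have := hx.1
    exact lt_of_lt_of_le (lt_min hy one_pos) this
  have h1 : ∀ x ∈ uIcc y 1, HasDerivAt (fun u => -psi p u) (x ^ (-1 - p)) x := by
    intro x hx
    have := (hasDerivAt_psi p (hpos x hx)).neg
    rwa [neg_neg] at this
  have h2 : IntervalIntegrable (fun u : ℝ => u ^ (-1 - p)) volume y 1 := by
    refine ContinuousOn.intervalIntegrable ?_
    intro x hx
    exact (Real.continuousAt_rpow_const x _ (Or.inl (hpos x hx).ne')).continuousWithinAt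
  rw [intervalIntegral.integral_eq_sub_of_hasDerivAt h1 h2, psi_one]
  ring

theorem psi_mono {p q : ℝ} (hpq : p ≤ q) {y : ℝ} (hy : 0 < y) : psi p y ≤ psi q y := by
  have hint : ∀ r a b : ℝ, 0 < a → a ≤ b →
      IntervalIntegrable (fun u : ℝ => u ^ (-1 - r)) volume a b := by
    intro r a b ha hab
    refine ContinuousOn.intervalIntegrable ?_
    intro x hx
    rw [uIcc_of_le hab] at hx
    exact (Real.continuousAt_rpow_const x _
      (Or.inl (ha.trans_le hx.1).ne')).continuousWithinAt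
  rw [psi_eq_integral p hy, psi_eq_integral q hy]
  rcases le_total y 1 with h | h
  · refine intervalIntegral.integral_mono_on h (hint p y 1 hy h) (hint q y 1 hy h) ?_
    intro x hx
    exact Real.rpow_le_rpow_of_exponent_ge (hy.trans_le hx.1) hx.2 (by linarith)
  · rw [intervalIntegral.integral_symm 1 y, intervalIntegral.integral_symm 1 y]
    refine neg_le_neg ?_
    refine intervalIntegral.integral_mono_on h (hint q 1 y one_pos h) (hint p 1 y one_pos h) ?_
    intro x hx
    exact Real.rpow_le_rpow_of_exponent_le hx.1 (by linarith)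

theorem psi_zero {p : ℝ} (hp : p < 0) : psi p 0 = -1 / p := by
  unfold psi
  rw [if_neg hp.ne, Real.zero_rpow (by linarith)]
  ring

/-- The tangent at `1`. -/
theorem le_psi {p : ℝ} (hp : -1 ≤ p) {y : ℝ} (hy : 0 < y) : 1 - y ≤ psi p y := by
  refine le_trans (le_of_eq ?_) (psi_mono hp hy)
  unfold psi
  rw [if_neg (by norm_num), neg_neg, Real.rpow_one]
  ring

theorem psi_convex {p : ℝ} (hp : -1 < p) : ConvexOn ℝ (Ioi 0) (psi p) := by
  refine MonotoneOn.convexOn_of_deriv (convex_Ioi 0) ?_ ?_ ?_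
  · intro x hx
    exact (hasDerivAt_psi p hx).continuousAt.continuousWithinAt
  · rw [interior_Ioi]
    intro x hx
    exact (hasDerivAt_psi p hx).differentiableAt.differentiableWithinAt
  · rw [interior_Ioi]
    intro x hx y hy hxy
    rw [(hasDerivAt_psi p hx).deriv, (hasDerivAt_psi p hy).deriv]
    refine neg_le_neg ?_
    exact Real.rpow_le_rpow_of_nonpos hx hxy (by linarith)

theorem psi_convex' {p : ℝ} (hp : -1 < p) (hp0 : p < 0) : ConvexOn ℝ (Ici 0) (psi p) := by
  refine MonotoneOn.convexOn_of_deriv (convex_Ici 0) ?_ ?_ ?_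
  · have e : psi p = fun y => (y ^ (-p) - 1) / p := by
      funext y
      simp [psi, hp0.ne]
    rw [e]
    have : Continuous (fun y : ℝ => y ^ (-p)) := Real.continuous_rpow_const (by linarith)
    fun_prop
  · rw [interior_Ici]
    intro x hx
    exact (hasDerivAt_psi p hx).differentiableAt.differentiableWithinAt
  · rw [interior_Ici]
    intro x hx y hy hxy
    rw [(hasDerivAt_psi p hx).deriv, (hasDerivAt_psi p hy).deriv]
    refine neg_le_neg ?_
    exact Real.rpow_le_rpow_of_nonpos hx hxy (by linarith)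

/-- Perspectives of convex functions are subadditive. -/
theorem persp {D : Set ℝ} {f : ℝ → ℝ} (hf : ConvexOn ℝ D f) {a a' b b' : ℝ} (ha : 0 < a)
    (ha' : 0 < a') (hb : b / a ∈ D) (hb' : b' / a' ∈ D) :
    (a + a') * f ((b + b') / (a + a')) ≤ a * f (b / a) + a' * f (b' / a') := by
  have hs : 0 < a + a' := by linarith
  have w1 : 0 ≤ a / (a + a') := by positivity
  have w2 : 0 ≤ a' / (a + a') := by positivity
  have w3 : a / (a + a') + a' / (a + a') = 1 := by field_simp
  have h1 := hf.2 hb hb' w1 w2 w3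
  simp only [smul_eq_mul] at h1
  have e : a / (a + a') * (b / a) + a' / (a + a') * (b' / a') = (b + b') / (a + a') := by
    field_simp
  rw [e] at h1
  have h2 := mul_le_mul_of_nonneg_left h1 hs.le
  refine h2.trans (le_of_eq ?_)
  field_simp

/-- The perspective of `psi p y + y - 1`. -/
noncomputable def J (p a b : ℝ) : ℝ≥0∞ :=
  if b = 0 ∧ 0 ≤ p then ⊤ else ENNReal.ofReal (a * psi p (b / a) + b - a)

theorem J_subadd {p : ℝ} (hp : -1 < p) {a a' b b' : ℝ} (ha : 0 < a) (ha' : 0 < a')
    (hb : 0 ≤ b) (hb' : 0 ≤ b') : J p (a + a') (b + b') ≤ J p a b + J p a' b' := by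
  unfold J
  by_cases h1 : b = 0 ∧ 0 ≤ p
  · simp [h1]
  by_cases h2 : b' = 0 ∧ 0 ≤ p
  · simp [h2]
  rw [if_neg h1, if_neg h2]
  have h3 : ¬ (b + b' = 0 ∧ 0 ≤ p) := by
    rintro ⟨h3, h4⟩
    exact h1 ⟨by linarith, h4⟩
  rw [if_neg h3]
  have h4 : (a + a') * psi p ((b + b') / (a + a')) ≤ a * psi p (b / a) + a' * psi p (b' / a') := by
    rcases lt_or_ge p 0 with h | h
    · exact persp (psi_convex' hp h) ha ha' (div_nonneg hb ha.le) (div_nonneg hb' ha'.le)
    · have hb1 : 0 < b := lt_of_le_of_ne hb (fun h' => h1 ⟨h'.symm, h⟩)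
      have hb2 : 0 < b' := lt_of_le_of_ne hb' (fun h' => h2 ⟨h'.symm, h⟩)
      exact persp (psi_convex hp) ha ha' (div_pos hb1 ha) (div_pos hb2 ha')
  refine le_trans (ENNReal.ofReal_le_ofReal ?_) ENNReal.ofReal_add_le
  linarith

theorem J_mono {p q : ℝ} (hpq : p ≤ q) {a b : ℝ} (ha : 0 < a) (hb : 0 ≤ b) :
    J p a b ≤ J q a b := by
  unfold J
  by_cases h2 : b = 0 ∧ 0 ≤ q
  · simp [h2]
  have h1 : ¬ (b = 0 ∧ 0 ≤ p) := fun h => h2 ⟨h.1, h.2.trans hpq⟩
  rw [if_neg h1, if_neg h2]
  refine ENNReal.ofReal_le_ofReal ?_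
  have h3 : psi p (b / a) ≤ psi q (b / a) := by
    rcases hb.eq_or_lt with h | h
    · have hq : q < 0 := by
        by_contra hcon
        exact h2 ⟨h.symm, not_lt.1 hcon⟩
      rw [← h, zero_div, psi_zero hq, psi_zero (hpq.trans_lt hq)]
      have h5 : 0 < -q := by linarith
      have h6 : 0 < -p := by linarith
      have e1 : -1 / p = 1 / (-p) := by rw [neg_div, div_neg]
      have e2 : -1 / q = 1 / (-q) := by rw [neg_div, div_neg]
      rw [e1, e2]
      exact one_div_le_one_div_of_le h5 (by linarith)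
    · exact psi_mono hpq (div_pos h ha)
  have h4 := mul_le_mul_of_nonneg_left h3 ha.le
  linarith

theorem J_nonneg {p : ℝ} (hp : -1 ≤ p) {a b : ℝ} (ha : 0 < a) (hb : 0 ≤ b)
    (h : ¬ (b = 0 ∧ 0 ≤ p)) : 0 ≤ a * psi p (b / a) + b - a := by
  have h3 : 1 - b / a ≤ psi p (b / a) := by
    rcases hb.eq_or_lt with h' | h'
    · have hq : p < 0 := by
        by_contra hcon
        exact h ⟨h'.symm, not_lt.1 hcon⟩
      rw [← h', zero_div, psi_zero hq]
      have h6 : 0 < -p := by linarith
      have e1 : -1 / p = 1 / (-p) := by rw [neg_div, div_neg]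
      rw [e1, sub_zero, le_div_iff₀ h6]
      linarith
    · exact le_psi hp (div_pos h' ha)
  have h4 := mul_le_mul_of_nonneg_left h3 ha.le
  have e : a * (1 - b / a) = a - b := by field_simp
  linarith

/-- The function of two variables attached to a monotone function. -/
noncomputable def HJ (p M : ℝ) (τ : ℝ → ℝ) (s t : ℝ) : ℝ≥0∞ :=
  J p (Real.sigmoid t - Real.sigmoid s) ((τ t - τ s) / M)

/-- The increments of the logistic map. -/
noncomputable def HX (s t : ℝ) : ℝ≥0∞ := ENNReal.ofReal (Real.sigmoid t - Real.sigmoid s)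

/-- The increments of the monotone function. -/
noncomputable def HT (M : ℝ) (τ : ℝ → ℝ) (s t : ℝ) : ℝ≥0∞ := ENNReal.ofReal ((τ t - τ s) / M)

theorem measurable_sigmoid : Measurable Real.sigmoid := Real.sigmoid_monotone.measurable

theorem measurable_HX : Measurable (Function.uncurry HX) := by
  have h1 : Measurable (fun x : ℝ × ℝ => Real.sigmoid x.2 - Real.sigmoid x.1) :=
    (measurable_sigmoid.comp measurable_snd).sub (measurable_sigmoid.comp measurable_fst)
  exact h1.ennreal_ofReal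

theorem measurable_HT (M : ℝ) {τ : ℝ → ℝ} (hτ : Monotone τ) :
    Measurable (Function.uncurry (HT M τ)) := by
  have h1 : Measurable (fun x : ℝ × ℝ => (τ x.2 - τ x.1) / M) :=
    ((hτ.measurable.comp measurable_snd).sub (hτ.measurable.comp measurable_fst)).div_const M
  exact h1.ennreal_ofReal

theorem measurable_HJ (p M : ℝ) {τ : ℝ → ℝ} (hτ : Monotone τ) :
    Measurable (Function.uncurry (HJ p M τ)) := by
  have h1 : Measurable (fun x : ℝ × ℝ => (τ x.2 - τ x.1) / M) :=
    ((hτ.measurable.comp measurable_snd).sub (hτ.measurable.comp measurable_fst)).div_const M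
  have h2 : Measurable (fun x : ℝ × ℝ => Real.sigmoid x.2 - Real.sigmoid x.1) :=
    (measurable_sigmoid.comp measurable_snd).sub (measurable_sigmoid.comp measurable_fst)
  have e : Function.uncurry (HJ p M τ) = fun x : ℝ × ℝ =>
      if (τ x.2 - τ x.1) / M = 0 ∧ 0 ≤ p then ⊤ else
        ENNReal.ofReal ((Real.sigmoid x.2 - Real.sigmoid x.1) * psi p (((τ x.2 - τ x.1) / M) /
          (Real.sigmoid x.2 - Real.sigmoid x.1)) + (τ x.2 - τ x.1) / M -
          (Real.sigmoid x.2 - Real.sigmoid x.1)) := by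
    funext x
    rfl
  rw [e]
  refine Measurable.ite ?_ measurable_const ?_
  · refine MeasurableSet.inter ?_ (MeasurableSet.const _)
    exact h1 (measurableSet_singleton 0)
  · exact (((h2.mul ((measurable_psi p).comp (h1.div h2))).add h1).sub h2).ennreal_ofReal

theorem HJ_subadd {p : ℝ} (hp : -1 < p) {M : ℝ} (hM : 0 < M) {τ : ℝ → ℝ} (hτ : Monotone τ)
    (s u t : ℝ) (hsu : s < u) (hut : u < t) : HJ p M τ s t ≤ HJ p M τ s u + HJ p M τ u t := by
  unfold HJ
  have e1 : Real.sigmoid t - Real.sigmoid s =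
    (Real.sigmoid u - Real.sigmoid s) + (Real.sigmoid t - Real.sigmoid u) := by ring
  have e2 : (τ t - τ s) / M = (τ u - τ s) / M + (τ t - τ u) / M := by ring
  rw [e1, e2]
  refine J_subadd hp (sigmoid_sub_pos hsu) (sigmoid_sub_pos hut) ?_ ?_
  · exact div_nonneg (sub_nonneg.2 (hτ hsu.le)) hM.le
  · exact div_nonneg (sub_nonneg.2 (hτ hut.le)) hM.le

end Pool.Agent.Lib.MP_6cd19d_an
end

section

/-!
# Finiteness of the constants
-/

set_option autoImplicit false

open MeasureTheory Set Filter Topology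
open scoped ENNReal

namespace Pool.Agent.Lib.MP_6cd19d_an

theorem exp_half_le_P (s : ℝ) : Real.exp (|s| / 2) ≤ P s := by
  unfold P
  rw [Real.cosh_eq]
  rcases abs_cases s with ⟨h, _⟩ | ⟨h, _⟩ <;> rw [h]
  · have := Real.exp_pos (-(s / 2))
    linarith
  · have := Real.exp_pos (s / 2)
    rw [neg_div]
    linarith

theorem integrable_exp_abs {a : ℝ} (ha : 0 < a) : Integrable (fun s : ℝ => Real.exp (-a * |s|)) := by
  rw [← integrableOn_univ, ← Iic_union_Ioi (a := (0 : ℝ))]
  refine IntegrableOn.union ?_ ?_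
  · refine (integrableOn_exp_mul_Iic ha 0).congr_fun ?_ measurableSet_Iic
    intro s hs
    have : s ≤ 0 := hs
    simp only
    rw [abs_of_nonpos this]
    congr 1
    ring
  · refine (integrableOn_exp_mul_Ioi (neg_lt_zero.2 ha) 0).congr_fun ?_ measurableSet_Ioi
    intro s hs
    have : 0 < s := hs
    simp only
    rw [abs_of_pos this]

/-- The total mass of the weight of one variable. -/
noncomputable def C (p : ℝ) : ℝ≥0∞ := ∫⁻ s, ENNReal.ofReal (P s ^ (-(1 + p)))

theorem P_rpow_le {p : ℝ} (hp : -1 < p) (s : ℝ) :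
    P s ^ (-(1 + p)) ≤ Real.exp (-((1 + p) / 2) * |s|) := by
  have h1 : P s ^ (-(1 + p)) ≤ (Real.exp (|s| / 2)) ^ (-(1 + p)) :=
    Real.rpow_le_rpow_of_nonpos (Real.exp_pos _) (exp_half_le_P s) (by linarith)
  refine h1.trans (le_of_eq ?_)
  rw [← Real.exp_mul]
  congr 1
  ring

theorem measurable_Pw (p : ℝ) : Measurable (fun s => ENNReal.ofReal (P s ^ (-(1 + p)))) := by
  have := continuous_P.measurable
  fun_prop

theorem C_ne_top {p : ℝ} (hp : -1 < p) : C p ≠ ⊤ := by
  have h1 : C p ≤ ∫⁻ s, ENNReal.ofReal (Real.exp (-((1 + p) / 2) * |s|)) :=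
    lintegral_mono fun s => ENNReal.ofReal_le_ofReal (P_rpow_le hp s)
  refine ne_top_of_le_ne_top ?_ h1
  exact ((integrable_exp_abs (by linarith : 0 < (1 + p) / 2)).lintegral_lt_top).ne

theorem C_ne_zero (p : ℝ) : C p ≠ 0 := by
  unfold C
  rw [← pos_iff_ne_zero, lintegral_pos_iff_support (measurable_Pw p)]
  have : Function.support (fun s => ENNReal.ofReal (P s ^ (-(1 + p)))) = univ := by
    rw [eq_univ_iff_forall]
    intro s
    rw [Function.mem_support, ne_eq, ENNReal.ofReal_eq_zero, not_le]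
    exact Real.rpow_pos_of_pos (P_pos s) _
  rw [this]
  simp

theorem half_exp_le_S {l : ℝ} (hl : 1 ≤ l) : Real.exp (l / 2) / 2 ≤ S l := by
  unfold S
  rw [Real.sinh_eq]
  have h1 : Real.exp (-(l / 2)) = Real.exp (l / 2) * Real.exp (-l) := by
    rw [← Real.exp_add]
    congr 1
    ring
  have h2 : Real.exp (-l) ≤ 1 / 2 := by
    have h3 : 1 + l ≤ Real.exp l := by
      have := Real.add_one_le_exp l
      linarith
    rw [Real.exp_neg, one_div]
    exact inv_anti₀ (by norm_num) (by linarith)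
  have h3 : Real.exp (-(l / 2)) ≤ Real.exp (l / 2) * (1 / 2) := by
    rw [h1]
    exact mul_le_mul_of_nonneg_left h2 (Real.exp_pos _).le
  linarith

theorem S_rpow_le {p : ℝ} (hp : -1 < p) {l : ℝ} (hl : 1 ≤ l) :
    S l ^ (-1 - p) ≤ 2 ^ (1 + p) * Real.exp (-((1 + p) / 2) * l) := by
  have h1 : S l ^ (-1 - p) ≤ (Real.exp (l / 2) / 2) ^ (-1 - p) :=
    Real.rpow_le_rpow_of_nonpos (by positivity) (half_exp_le_S hl) (by linarith)
  refine h1.trans (le_of_eq ?_)
  rw [Real.div_rpow (Real.exp_pos _).le (by norm_num), ← Real.exp_mul, div_eq_mul_inv,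
    ← Real.rpow_neg (by norm_num), mul_comm]
  congr 2 <;> ring

theorem Z_ne_top {p : ℝ} (hp : -1 < p) (hp1 : p < 1) : Z p ≠ ⊤ := by
  unfold Z
  rw [← Ioc_union_Ioi_eq_Ioi (zero_le_one' ℝ), lintegral_union measurableSet_Ioi
    (Set.disjoint_left.2 fun x hx hx' => not_lt.2 hx.2 hx')]
  refine ENNReal.add_ne_top.2 ⟨?_, ?_⟩
  · have h1 : ∫⁻ l in Ioc 0 1, ENNReal.ofReal (S l ^ (-1 - p)) * ENNReal.ofReal l ≤
        ∫⁻ l in Ioc (0 : ℝ) 1, ENNReal.ofReal (l ^ (-p)) := by
      refine setLIntegral_mono' measurableSet_Ioc ?_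
      intro l hl
      have hl0 : 0 < l := hl.1
      rw [← ENNReal.ofReal_mul (Real.rpow_nonneg (S_pos hl0).le _)]
      refine ENNReal.ofReal_le_ofReal ?_
      have h1 : S l ^ (-1 - p) ≤ l ^ (-1 - p) :=
        Real.rpow_le_rpow_of_nonpos hl0 (le_S hl0.le) (by linarith)
      calc S l ^ (-1 - p) * l ≤ l ^ (-1 - p) * l := mul_le_mul_of_nonneg_right h1 hl0.le
        _ = l ^ (-1 - p) * l ^ (1 : ℝ) := by rw [Real.rpow_one]
        _ = l ^ (-p) := by
          rw [← Real.rpow_add hl0]
          congr 1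
          ring
    refine ne_top_of_le_ne_top ?_ h1
    have h2 : IntegrableOn (fun l : ℝ => l ^ (-p)) (Ioc 0 1) := by
      rw [← intervalIntegrable_iff_integrableOn_Ioc_of_le zero_le_one]
      exact intervalIntegral.intervalIntegrable_rpow' (by linarith)
    exact h2.lintegral_lt_top.ne
  · set a : ℝ := (1 + p) / 4 with ha
    have ha0 : 0 < a := by rw [ha]; linarith
    have h1 : ∫⁻ l in Ioi 1, ENNReal.ofReal (S l ^ (-1 - p)) * ENNReal.ofReal l ≤
        ∫⁻ l in Ioi (1 : ℝ), ENNReal.ofReal (2 ^ (1 + p) * a⁻¹ * Real.exp (-a * l)) := by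
      refine setLIntegral_mono' measurableSet_Ioi ?_
      intro l hl
      have hl1 : 1 < l := hl
      have hl0 : 0 < l := by linarith
      rw [← ENNReal.ofReal_mul (Real.rpow_nonneg (S_pos hl0).le _)]
      refine ENNReal.ofReal_le_ofReal ?_
      have h1 := S_rpow_le hp hl1.le
      have h2 : l ≤ a⁻¹ * Real.exp (a * l) := by
        have h3 := Real.add_one_le_exp (a * l)
        rw [le_inv_mul_iff₀ ha0]
        linarith
      calc S l ^ (-1 - p) * l ≤
          (2 ^ (1 + p) * Real.exp (-((1 + p) / 2) * l)) * (a⁻¹ * Real.exp (a * l)) := by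
            refine mul_le_mul h1 h2 hl0.le ?_
            positivity
        _ = 2 ^ (1 + p) * a⁻¹ * (Real.exp (-((1 + p) / 2) * l) * Real.exp (a * l)) := by ring
        _ = _ := by
          rw [← Real.exp_add]
          congr 2
          rw [ha]
          ring
    refine ne_top_of_le_ne_top ?_ h1
    exact ((integrableOn_exp_mul_Ioi (neg_lt_zero.2 ha0) 1).const_mul
      (2 ^ (1 + p) * a⁻¹)).lintegral_lt_top.ne

/-- The function whose weighted integral is the logarithmic energy of the interval. -/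
noncomputable def HL (s t : ℝ) : ℝ≥0∞ :=
  ENNReal.ofReal (-((Real.sigmoid t - Real.sigmoid s) * Real.log (Real.sigmoid t - Real.sigmoid s)))

theorem measurable_HL : Measurable (Function.uncurry HL) := by
  have h2 : Measurable (fun x : ℝ × ℝ => Real.sigmoid x.2 - Real.sigmoid x.1) :=
    (measurable_sigmoid.comp measurable_snd).sub (measurable_sigmoid.comp measurable_fst)
  exact (h2.mul (Real.measurable_log.comp h2)).neg.ennreal_ofReal

theorem W_HL_ne_top : W 0 HL ≠ ⊤ := by
  have hPw : Measurable (fun s => ENNReal.ofReal (P s ^ (-(1 / 2) : ℝ))) := by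
    have := continuous_P.measurable
    fun_prop
  have hC : ∫⁻ s, ENNReal.ofReal (P s ^ (-(1 / 2) : ℝ)) = C (-(1 / 2)) := by
    unfold C
    norm_num
  have hC1 : C (-(1 / 2)) ≠ ⊤ := C_ne_top (by norm_num)
  have hb : ∀ s t, s < t → HL s t ≤ ENNReal.ofReal (2 * S (t - s) ^ (1 / 2 : ℝ)) *
      (ENNReal.ofReal (P s ^ (-(1 / 2) : ℝ)) * ENNReal.ofReal (P t ^ (-(1 / 2) : ℝ))) := by
    intro s t hst
    unfold HL
    rw [← ENNReal.ofReal_mul (Real.rpow_nonneg (P_pos s).le _),
      ← ENNReal.ofReal_mul (by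
        have := S_pos (sub_pos.2 hst)
        positivity)]
    refine ENNReal.ofReal_le_ofReal ?_
    have hx := sigmoid_sub_pos hst
    set x := Real.sigmoid t - Real.sigmoid s with hxdef
    have h1 : -(x * Real.log x) ≤ 2 * x ^ (1 / 2 : ℝ) := by
      have h2 : -Real.log x ≤ 2 * x ^ (-(1 / 2) : ℝ) := by
        have h3 := Real.log_le_rpow_div (x := x⁻¹) (ε := 1 / 2) (by positivity) (by norm_num)
        rw [Real.log_inv] at h3
        rw [Real.rpow_neg hx.le, ← Real.inv_rpow hx.le]
        linarith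
      calc -(x * Real.log x) = x * (-Real.log x) := by ring
        _ ≤ x * (2 * x ^ (-(1 / 2) : ℝ)) := mul_le_mul_of_nonneg_left h2 hx.le
        _ = 2 * (x ^ (1 : ℝ) * x ^ (-(1 / 2) : ℝ)) := by rw [Real.rpow_one]; ring
        _ = 2 * x ^ (1 / 2 : ℝ) := by
          rw [← Real.rpow_add hx]
          norm_num
    refine h1.trans (le_of_eq ?_)
    rw [hxdef, sigmoid_sub, Real.div_rpow (S_pos (sub_pos.2 hst)).le
      (mul_pos (P_pos s) (P_pos t)).le, Real.mul_rpow (P_pos s).le (P_pos t).le,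
      Real.rpow_neg (P_pos s).le, Real.rpow_neg (P_pos t).le]
    field_simp
  have h1 : W 0 HL ≤ ∫⁻ l in Ioi 0, ∫⁻ s, ENNReal.ofReal (2 * S l ^ (-(1 / 2) : ℝ)) *
      (ENNReal.ofReal (P s ^ (-(1 / 2) : ℝ)) * ENNReal.ofReal (P (s + l) ^ (-(1 / 2) : ℝ))) := by
    unfold W
    refine setLIntegral_mono' measurableSet_Ioi ?_
    intro l hl
    have hl0 : 0 < l := hl
    rw [← lintegral_const_mul' _ _ ENNReal.ofReal_ne_top]
    refine lintegral_mono fun s => ?_
    have h2 := hb s (s + l) (by linarith)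
    rw [add_sub_cancel_left] at h2
    refine (mul_le_mul_right h2 _).trans (le_of_eq ?_)
    rw [← mul_assoc, ← ENNReal.ofReal_mul (Real.rpow_nonneg (S_pos hl0).le _)]
    congr 2
    have e : (-(1 / 2) : ℝ) = (-1 - 0) + 1 / 2 := by norm_num
    rw [e, Real.rpow_add (S_pos hl0)]
    ring
  refine ne_top_of_le_ne_top ?_ h1
  rw [← Ioc_union_Ioi_eq_Ioi (zero_le_one' ℝ), lintegral_union measurableSet_Ioi
    (Set.disjoint_left.2 fun x hx hx' => not_lt.2 hx.2 hx')]
  refine ENNReal.add_ne_top.2 ⟨?_, ?_⟩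
  · have h2 : ∫⁻ l in Ioc (0 : ℝ) 1, ∫⁻ s, ENNReal.ofReal (2 * S l ^ (-(1 / 2) : ℝ)) *
        (ENNReal.ofReal (P s ^ (-(1 / 2) : ℝ)) * ENNReal.ofReal (P (s + l) ^ (-(1 / 2) : ℝ))) ≤
        ∫⁻ l in Ioc (0 : ℝ) 1, ENNReal.ofReal (2 * l ^ (-(1 / 2) : ℝ)) * C (-(1 / 2)) := by
      refine setLIntegral_mono' measurableSet_Ioc ?_
      intro l hl
      have hl0 : 0 < l := hl.1
      rw [lintegral_const_mul' _ _ ENNReal.ofReal_ne_top]
      refine mul_le_mul' (ENNReal.ofReal_le_ofReal ?_) ?_
      · have : S l ^ (-(1 / 2) : ℝ) ≤ l ^ (-(1 / 2) : ℝ) :=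
          Real.rpow_le_rpow_of_nonpos hl0 (le_S hl0.le) (by norm_num)
        linarith
      · rw [← hC]
        refine lintegral_mono fun s => ?_
        have h3 : ENNReal.ofReal (P (s + l) ^ (-(1 / 2) : ℝ)) ≤ 1 := by
          rw [← ENNReal.ofReal_one]
          refine ENNReal.ofReal_le_ofReal ?_
          exact Real.rpow_le_one_of_one_le_of_nonpos (by linarith [two_le_P (s + l)])
            (by norm_num)
        calc _ ≤ ENNReal.ofReal (P s ^ (-(1 / 2) : ℝ)) * 1 := mul_le_mul_right h3 _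
          _ = _ := mul_one _
    refine ne_top_of_le_ne_top ?_ h2
    rw [lintegral_mul_const' _ _ hC1]
    refine ENNReal.mul_ne_top ?_ hC1
    have h2 : IntegrableOn (fun l : ℝ => 2 * l ^ (-(1 / 2) : ℝ)) (Ioc 0 1) := by
      rw [← intervalIntegrable_iff_integrableOn_Ioc_of_le zero_le_one]
      exact (intervalIntegral.intervalIntegrable_rpow' (by norm_num)).const_mul _
    exact h2.lintegral_lt_top.ne
  · have h2 : ∫⁻ l in Ioi (1 : ℝ), ∫⁻ s, ENNReal.ofReal (2 * S l ^ (-(1 / 2) : ℝ)) *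
        (ENNReal.ofReal (P s ^ (-(1 / 2) : ℝ)) * ENNReal.ofReal (P (s + l) ^ (-(1 / 2) : ℝ))) ≤
        ∫⁻ l : ℝ, ∫⁻ s, 2 *
        (ENNReal.ofReal (P s ^ (-(1 / 2) : ℝ)) * ENNReal.ofReal (P (s + l) ^ (-(1 / 2) : ℝ))) := by
      refine le_trans (setLIntegral_mono' measurableSet_Ioi ?_) (setLIntegral_le_lintegral _ _)
      intro l hl
      have hl1 : (1 : ℝ) < l := hl
      refine lintegral_mono fun s => mul_le_mul_left ?_ _
      rw [show (2 : ℝ≥0∞) = ENNReal.ofReal 2 by simp]
      refine ENNReal.ofReal_le_ofReal ?_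
      have : S l ^ (-(1 / 2) : ℝ) ≤ 1 :=
        Real.rpow_le_one_of_one_le_of_nonpos (by linarith [le_S (by linarith : (0 : ℝ) ≤ l)])
          (by norm_num)
      linarith
    refine ne_top_of_le_ne_top ?_ h2
    rw [lintegral_lintegral_swap]
    · have h3 : ∀ s : ℝ, ∫⁻ l, 2 * (ENNReal.ofReal (P s ^ (-(1 / 2) : ℝ)) *
          ENNReal.ofReal (P (s + l) ^ (-(1 / 2) : ℝ))) =
          ENNReal.ofReal (P s ^ (-(1 / 2) : ℝ)) * (2 * C (-(1 / 2))) := by
        intro s
        rw [lintegral_const_mul' _ _ (by norm_num), lintegral_const_mul' _ _ ENNReal.ofReal_ne_top,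
          lintegral_add_left_eq_self (fun l => ENNReal.ofReal (P l ^ (-(1 / 2) : ℝ))) s, hC]
        ring
      simp_rw [h3]
      rw [lintegral_mul_const _ hPw, hC]
      exact ENNReal.mul_ne_top hC1 (ENNReal.mul_ne_top (by norm_num) hC1)
    · refine Measurable.aemeasurable ?_
      have h4 : Measurable (fun x : ℝ × ℝ => ENNReal.ofReal (P (x.2 + x.1) ^ (-(1 / 2) : ℝ))) :=
        hPw.comp (measurable_snd.add measurable_fst)
      have h5 : Measurable (fun x : ℝ × ℝ => ENNReal.ofReal (P x.2 ^ (-(1 / 2) : ℝ))) :=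
        hPw.comp measurable_snd
      exact (h5.mul h4).const_mul 2

end Pool.Agent.Lib.MP_6cd19d_an
end

section

/-!
# The comparison of two exponents for one monotone function
-/

set_option autoImplicit false

open MeasureTheory Set Filter Topology
open scoped ENNReal

namespace Pool.Agent.Lib.MP_6cd19d_an

/-- The generalized mean of exponent `- p` of the difference quotients is at least `M`. -/
def Good (p M : ℝ) (τ : ℝ → ℝ) : Prop := W p (HJ p M τ) + Z p ≤ W p (HT M τ)

theorem W_HT {p M : ℝ} (hM : 0 < M) {τ : ℝ → ℝ} (hτ : Monotone τ) {a b : ℝ}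
    (ha : Tendsto τ atBot (𝓝 a)) (hb : Tendsto τ atTop (𝓝 b)) :
    W p (HT M τ) = Z p * ENNReal.ofReal ((b - a) / M) := by
  have h1 : Monotone (fun s => τ s / M) := fun x y hxy =>
    div_le_div_of_nonneg_right (hτ hxy) hM.le
  have h2 := W_monotone (p := p) h1 (ha.div_const M) (hb.div_const M)
  have e : HT M τ = fun s t => ENNReal.ofReal (τ t / M - τ s / M) := by
    funext s t
    unfold HT
    rw [sub_div]
  rw [e, h2, sub_div]

theorem Good.mono {p q M : ℝ} (hp : -1 < p) (hpq : p ≤ q) (hq : q < 1) (hM : 0 < M) {τ : ℝ → ℝ}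
    (hτ : Monotone τ) {a b : ℝ} (ha : Tendsto τ atBot (𝓝 a)) (hb : Tendsto τ atTop (𝓝 b))
    (h : Good q M τ) : Good p M τ := by
  unfold Good at h ⊢
  rw [W_HT hM hτ ha hb] at h ⊢
  have h1 : W p (HJ p M τ) * Z q ≤ W q (HJ q M τ) * Z p := by
    refine (W_key hp hpq (measurable_HJ p M hτ) (HJ_subadd hp hM hτ)).trans ?_
    refine mul_le_mul_left (W_mono ?_) _
    intro s t hst
    exact J_mono hpq (sigmoid_sub_pos hst) (div_nonneg (sub_nonneg.2 (hτ hst.le)) hM.le)
  have hZ0 := Z_ne_zero q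
  have hZt : Z q ≠ ⊤ := Z_ne_top (hp.trans_le hpq) hq
  have h2 : (W p (HJ p M τ) + Z p) * Z q ≤ (Z p * ENNReal.ofReal ((b - a) / M)) * Z q := by
    calc (W p (HJ p M τ) + Z p) * Z q = W p (HJ p M τ) * Z q + Z p * Z q := by ring
      _ ≤ W q (HJ q M τ) * Z p + Z p * Z q := by gcongr
      _ = (W q (HJ q M τ) + Z q) * Z p := by ring
      _ ≤ (Z q * ENNReal.ofReal ((b - a) / M)) * Z p := by gcongr
      _ = _ := by ring
  exact (ENNReal.mul_le_mul_iff_left hZ0 hZt).1 h2

theorem Good.le {q M : ℝ} (hq : -1 < q) (hq1 : q < 1) (hM : 0 < M) {τ : ℝ → ℝ}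
    (hτ : Monotone τ) {a b : ℝ} (ha : Tendsto τ atBot (𝓝 a)) (hb : Tendsto τ atTop (𝓝 b))
    (h : Good q M τ) : M ≤ b - a := by
  unfold Good at h
  rw [W_HT hM hτ ha hb] at h
  have h1 : Z q * 1 ≤ Z q * ENNReal.ofReal ((b - a) / M) := by
    rw [mul_one]
    exact le_add_self.trans h
  have h2 := (ENNReal.mul_le_mul_iff_right (Z_ne_zero q) (Z_ne_top hq hq1)).1 h1
  rw [← ENNReal.ofReal_one, ENNReal.ofReal_le_ofReal_iff'] at h2
  rcases h2 with h2 | h2
  · rwa [le_div_iff₀ hM, one_mul] at h2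
  · linarith

/-- Expanding functions. -/
theorem good_of_expanding {p M : ℝ} (hp : -1 < p) (hM : 0 < M) {τ : ℝ → ℝ}
    (h : ∀ s t, s < t → M * (Real.sigmoid t - Real.sigmoid s) ≤ τ t - τ s) : Good p M τ := by
  unfold Good
  rw [← W_sigmoid p]
  change W p (HJ p M τ) + W p HX ≤ _
  rw [add_comm, ← W_add measurable_HX]
  refine W_mono ?_
  intro s t hst
  have hx := sigmoid_sub_pos hst
  have hd := h s t hst
  have hb : Real.sigmoid t - Real.sigmoid s ≤ (τ t - τ s) / M := by
    rw [le_div_iff₀ hM]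
    linarith
  have hb0 : 0 < (τ t - τ s) / M := hx.trans_le hb
  unfold HX HJ HT J
  rw [if_neg (fun h => hb0.ne' h.1)]
  have h1 : psi p ((τ t - τ s) / M / (Real.sigmoid t - Real.sigmoid s)) ≤ 0 := by
    rw [← psi_one p]
    have hy : 1 ≤ (τ t - τ s) / M / (Real.sigmoid t - Real.sigmoid s) := by
      rwa [le_div_iff₀ hx, one_mul]
    have hy0 : 0 < (τ t - τ s) / M / (Real.sigmoid t - Real.sigmoid s) := by linarith
    rw [psi_eq_integral p hy0, psi_eq_integral p one_pos, intervalIntegral.integral_symm,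
      intervalIntegral.integral_same]
    rw [neg_nonpos]
    refine intervalIntegral.integral_nonneg hy ?_
    intro u hu
    exact Real.rpow_nonneg (by linarith [hu.1]) _
  have h2 : (Real.sigmoid t - Real.sigmoid s) *
      psi p ((τ t - τ s) / M / (Real.sigmoid t - Real.sigmoid s)) ≤ 0 :=
    mul_nonpos_of_nonneg_of_nonpos hx.le h1
  have h3 := J_nonneg hp.le hx hb0.le (fun h => hb0.ne' h.1)
  rw [← ENNReal.ofReal_add hx.le h3]
  refine ENNReal.ofReal_le_ofReal ?_
  linarith

end Pool.Agent.Lib.MP_6cd19d_an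
end

section

/-!
# Energies in the logistic coordinates
-/

set_option autoImplicit false

open MeasureTheory Set Filter Topology
open scoped ENNReal

namespace Pool.Agent.Lib.MP_6cd19d_an

/-- The reference probability measure in the logistic coordinate. -/
noncomputable def rho (p : ℝ) : Measure ℝ :=
  (C p)⁻¹ • volume.withDensity (fun s => ENNReal.ofReal (P s ^ (-(1 + p))))

theorem rho_prob {p : ℝ} (hp : -1 < p) : IsProbabilityMeasure (rho p) := by
  refine ⟨?_⟩
  unfold rho
  rw [Measure.smul_apply, withDensity_apply _ MeasurableSet.univ, Measure.restrict_univ,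
    smul_eq_mul]
  exact ENNReal.inv_mul_cancel (C_ne_zero p) (C_ne_top hp)

theorem rho_ac (p : ℝ) : rho p ≪ volume := by
  unfold rho
  exact (withDensity_absolutelyContinuous _ _).smul_left _

theorem ac_rho {p : ℝ} (hp : -1 < p) : volume ≪ rho p := by
  intro s hs
  unfold rho at hs
  rw [Measure.smul_apply, smul_eq_mul, mul_eq_zero] at hs
  rcases hs with hs | hs
  · rw [ENNReal.inv_eq_zero] at hs
    exact absurd hs (C_ne_top hp)
  · refine (withDensity_absolutelyContinuous' (measurable_Pw p).aemeasurable ?_) hs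
    refine Eventually.of_forall fun s => ?_
    rw [ne_eq, ENNReal.ofReal_eq_zero, not_le]
    exact Real.rpow_pos_of_pos (P_pos s) _

theorem lint_rho (p : ℝ) {f : ℝ → ℝ≥0∞} (hf : Measurable f) :
    ∫⁻ s, f s ∂(rho p) = (C p)⁻¹ * ∫⁻ s, ENNReal.ofReal (P s ^ (-(1 + p))) * f s := by
  unfold rho
  rw [lintegral_smul_measure, lintegral_withDensity_eq_lintegral_mul _ (measurable_Pw p) hf]
  rfl

/-- The integral of a symmetric function of two variables. -/
theorem lint_symm {K : ℝ → ℝ → ℝ≥0∞} (hK : Measurable (Function.uncurry K))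
    (hsymm : ∀ s t, K s t = K t s) :
    ∫⁻ s, ∫⁻ t, K s t = 2 * ∫⁻ l in Ioi 0, ∫⁻ s, K s (s + l) := by
  have h1 : ∫⁻ s, ∫⁻ t, K s t = ∫⁻ l, ∫⁻ s, K s (s + l) := by
    have : ∀ s, ∫⁻ t, K s t = ∫⁻ l, K s (s + l) := fun s =>
      (lintegral_add_left_eq_self (fun t => K s t) s).symm
    simp_rw [this]
    refine lintegral_lintegral_swap ?_
    refine Measurable.aemeasurable ?_
    exact hK.comp (measurable_fst.prodMk (measurable_fst.add measurable_snd))
  have h2 : ∀ l, ∫⁻ s, K s (s + -l) = ∫⁻ s, K s (s + l) := by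
    intro l
    rw [← lintegral_add_right_eq_self (fun s => K s (s + -l)) l]
    refine lintegral_congr fun s => ?_
    rw [add_neg_cancel_right, hsymm]
  set f : ℝ → ℝ≥0∞ := fun l => ∫⁻ s, K s (s + l) with hf
  have h3 : ∫⁻ l in Iic 0, f l = ∫⁻ l in Ioi 0, f l := by
    rw [← restrict_Iio_eq_restrict_Iic, ← lintegral_indicator measurableSet_Iio,
      ← lintegral_indicator measurableSet_Ioi, ← lintegral_neg_eq_self]
    refine lintegral_congr fun l => ?_
    simp only [indicator, mem_Iio, mem_Ioi, neg_lt_zero]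
    split_ifs with h
    · exact h2 l
    · rfl
  rw [h1, ← lintegral_add_compl f (measurableSet_Ioi (a := (0 : ℝ))), compl_Ioi, h3, two_mul]

theorem weight_eq {p s t : ℝ} (hst : s < t) :
    P s ^ (-(1 + p)) * P t ^ (-(1 + p)) =
      S (t - s) ^ (-1 - p) * (Real.sigmoid t - Real.sigmoid s) ^ (1 + p) := by
  have h1 := S_pos (sub_pos.2 hst)
  have h2 := P_pos s
  have h3 := P_pos t
  rw [sigmoid_sub, Real.div_rpow h1.le (mul_pos h2 h3).le, Real.mul_rpow h2.le h3.le,
    Real.rpow_neg h2.le, Real.rpow_neg h3.le, show -1 - p = -(1 + p) by ring,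
    Real.rpow_neg h1.le]
  have h4 := Real.rpow_pos_of_pos h1 (1 + p)
  have h5 := Real.rpow_pos_of_pos h2 (1 + p)
  have h6 := Real.rpow_pos_of_pos h3 (1 + p)
  field_simp

/-- Energies with respect to the reference measure. -/
theorem energy_rho {p : ℝ} {k : ℝ → ℝ → ℝ≥0∞} (hk : Measurable (Function.uncurry k))
    (hsymm : ∀ s t, k s t = k t s) :
    ∫⁻ s, ∫⁻ t, k s t ∂(rho p) ∂(rho p) = (C p)⁻¹ * (C p)⁻¹ *
      (2 * W p (fun s t => ENNReal.ofReal ((Real.sigmoid t - Real.sigmoid s) ^ (1 + p)) *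
        k s t)) := by
  have hk1 : ∀ s, Measurable (fun t => k s t) := fun s => hk.comp measurable_prodMk_left
  have h0 : ∀ s, ∫⁻ t, k s t ∂(rho p) =
      (C p)⁻¹ * ∫⁻ t, ENNReal.ofReal (P t ^ (-(1 + p))) * k s t := fun s => lint_rho p (hk1 s)
  simp_rw [h0]
  have hm1 : Measurable (Function.uncurry fun s t => ENNReal.ofReal (P t ^ (-(1 + p))) * k s t) :=
    ((measurable_Pw p).comp measurable_snd).mul hk
  have hm2 : Measurable (fun s => ∫⁻ t, ENNReal.ofReal (P t ^ (-(1 + p))) * k s t) :=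
    hm1.lintegral_prod_right'
  rw [lint_rho p (hm2.const_mul _)]
  have h1 : ∫⁻ s, ENNReal.ofReal (P s ^ (-(1 + p))) *
      ((C p)⁻¹ * ∫⁻ t, ENNReal.ofReal (P t ^ (-(1 + p))) * k s t) =
      (C p)⁻¹ * ∫⁻ s, ∫⁻ t, ENNReal.ofReal (P s ^ (-(1 + p))) *
        (ENNReal.ofReal (P t ^ (-(1 + p))) * k s t) := by
    rw [← lintegral_const_mul]
    · refine lintegral_congr fun s => ?_
      rw [lintegral_const_mul' _ _ ENNReal.ofReal_ne_top]
      ring
    · have : (fun s => ∫⁻ t, ENNReal.ofReal (P s ^ (-(1 + p))) *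
          (ENNReal.ofReal (P t ^ (-(1 + p))) * k s t)) =
          fun s => ENNReal.ofReal (P s ^ (-(1 + p))) *
            ∫⁻ t, ENNReal.ofReal (P t ^ (-(1 + p))) * k s t := by
        funext s
        rw [lintegral_const_mul' _ _ ENNReal.ofReal_ne_top]
      rw [this]
      exact (measurable_Pw p).mul hm2
  rw [h1, lint_symm]
  · unfold W
    rw [← mul_assoc]
    congr 2
    refine setLIntegral_congr_fun measurableSet_Ioi ?_
    intro l hl
    have hl0 : 0 < l := hl
    simp only
    rw [← lintegral_const_mul' _ _ ENNReal.ofReal_ne_top]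
    refine lintegral_congr fun s => ?_
    have h2 := weight_eq (p := p) (by linarith : s < s + l)
    rw [add_sub_cancel_left] at h2
    rw [← mul_assoc, ← mul_assoc, ← ENNReal.ofReal_mul (Real.rpow_nonneg (P_pos s).le _), h2,
      ENNReal.ofReal_mul (Real.rpow_nonneg (S_pos hl0).le _)]
  · exact ((measurable_Pw p).comp measurable_fst).mul hm1
  · intro s t
    rw [hsymm s t]
    ring

/-- Energies of the images of the reference measure. -/
theorem energy_map {α : Type} [MeasurableSpace α] {p : ℝ} {k : α → α → ℝ≥0∞}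
    (hk : Measurable (Function.uncurry k))
    (hsymm : ∀ x y, k x y = k y x) {f : ℝ → α} (hf : Measurable f) :
    ∫⁻ x, ∫⁻ y, k x y ∂((rho p).map f) ∂((rho p).map f) = (C p)⁻¹ * (C p)⁻¹ *
      (2 * W p (fun s t => ENNReal.ofReal ((Real.sigmoid t - Real.sigmoid s) ^ (1 + p)) *
        k (f s) (f t))) := by
  have : SFinite (rho p) := by
    unfold rho
    infer_instance
  rw [lintegral_map _ hf]
  · have h1 : ∀ s, ∫⁻ y, k (f s) y ∂((rho p).map f) = ∫⁻ t, k (f s) (f t) ∂(rho p) := by
      intro s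
      rw [lintegral_map _ hf]
      exact hk.comp measurable_prodMk_left
    simp_rw [h1]
    refine energy_rho (k := fun s t => k (f s) (f t)) ?_ (fun s t => hsymm _ _)
    exact hk.comp ((hf.comp measurable_fst).prodMk (hf.comp measurable_snd))
  · exact hk.lintegral_prod_right'

end Pool.Agent.Lib.MP_6cd19d_an
end
end
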